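import Pool.Agent.V8H9.GE.Stp
import Pool.Agent.Y884.GR.Fam

/-!
# Bounded gaps between the defects: the end of the proof
-/

set_option autoImplicit false

namespace Pool.Agent.V8H9.GE

open Finset Filter Topology
open Pool.Agent.Y884.GR
open Pool.Agent.V8H9.GD (Pr mem_Pr Pr_card)

open Classical in
/-- the number of `N ≤ X` with defect `m` -/
noncomputable def ct (X : ℝ) (m : ℕ) : ℕ := ((Icc 1 ⌊X⌋₊).filter (fun N : ℕ => Gd m N)).card

section

variable {K M : ℕ} {D : ℕ → Prop} {R : ℕ} {h : ℕ → ℕ} {N : ℕ}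

theorem Lev.adm (A : Lev K M D K R h N) (q : ℕ) (hq : q.Prime) :
    ∃ n : ℕ, ¬ q ∣ n ∧ ∀ i : Fin K,
      ¬ q ∣ R.factorial * n + ((N + R.factorial) + 2 * h i) := by
  have hR1 := A.R1
  rcases Nat.lt_or_ge R q with hqk | hqk
  · have hnW : ¬ (q : ℤ) ∣ (R.factorial : ℤ) := by
      intro hd
      have := (hq.dvd_factorial).mp (Int.natCast_dvd_natCast.mp hd)
      omega
    have hq1 : (1 : ℤ) < q := by exact_mod_cast hq.one_lt
    obtain ⟨n, hn⟩ := Pool.Agent.H361R2.exists_avoid' (m := K + 1) hq (by omega)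
        (Fin.cons 1 (fun _ => (R.factorial : ℤ)))
        (Fin.cons 0 (fun i : Fin K => (((N + R.factorial) + 2 * h i : ℕ) : ℤ))) (by
          intro i
          refine Fin.cases ?_ (fun i => ?_) i
          · simp only [Fin.cons_zero]
            rintro ⟨h1, _⟩
            have := Int.le_of_dvd one_pos h1
            omega
          · simp only [Fin.cons_succ]
            rintro ⟨h1, _⟩
            exact hnW h1)
    refine ⟨n, ?_, ?_⟩
    · intro hd
      have := hn 0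
      simp only [Fin.cons_zero, one_mul, add_zero] at this
      exact this (Int.natCast_dvd_natCast.2 hd)
    · intro i hd
      have := hn i.succ
      simp only [Fin.cons_succ] at this
      exact this (by exact_mod_cast hd)
  · refine ⟨1, fun hd => hq.one_lt.ne' (Nat.dvd_one.1 hd), ?_⟩
    intro i hd
    apply A.g0 q hq hqk i i.2
    have h1 : (q : ℤ) ∣ (R.factorial : ℤ) := Int.natCast_dvd_natCast.2 ((hq.dvd_factorial).2 hqk)
    have h4 := dvd_sub (Int.natCast_dvd_natCast.2 hd) (h1.mul_left 2)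
    push_cast at h4
    have e : (R.factorial : ℤ) * 1 + ((N : ℤ) + R.factorial + 2 * h i) - 2 * R.factorial =
      (N : ℤ) + 2 * h i := by ring
    rw [e] at h4
    exact h4

theorem Lev.prime_pair (A : Lev K M D K R h N) (ν : ℕ) {e : ℕ × ℕ} (he : e ∈ Pr K)
    (h1 : (R.factorial * ν + (N + R.factorial) + 2 * h e.1).Prime)
    (h2 : (R.factorial * ν + (N + R.factorial) + 2 * h e.2).Prime) :
    Gd (h e.2 - h e.1 + 1) (R.factorial * ν + (N + R.factorial) + h e.1 + h e.2) := by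
  have he' := mem_Pr.1 he
  obtain ⟨_, p, q, r, hTr, hrR, hPre⟩ := A.tr e.1 e.2 he'.1 he'.2
  have hinc := A.inc e.1 e.2 he'.1 he'.2
  have hR2 := A.hR e.2 he'.2
  have hR1 := A.R1
  have hpq := hTr.pq
  have hqr := hTr.qr
  have hsum := hTr.sum
  have hfac : R ≤ R.factorial := Nat.self_le_factorial R
  have hp2 := hTr.p2
  refine ⟨p, q, r, R.factorial * ν + (N + R.factorial) + 2 * h e.1, h e.2 - h e.1, hTr, ?_, h1, ?_,
    ?_, rfl, ?_⟩
  · refine hPre.congr (R := R) hTr.pP hTr.qP hTr.rP (by omega) (by omega) hrR ?_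
    intro l hl hlR
    have h3 : (l : ℤ) ∣ (R.factorial : ℤ) := Int.natCast_dvd_natCast.2 ((hl.dvd_factorial).2 hlR)
    have e1 : ((R.factorial * ν + (N + R.factorial) + 2 * h e.1 : ℕ) : ℤ) +
      ((h e.2 - h e.1 : ℕ) : ℤ) - ((N : ℤ) + h e.1 + h e.2) = (R.factorial : ℤ) * (ν + 1) := by
      rw [Nat.cast_sub hinc.le]; push_cast; ring
    rw [e1]
    exact h3.mul_right _
  · have e1 : R.factorial * ν + (N + R.factorial) + 2 * h e.1 + 2 * (h e.2 - h e.1) =
      R.factorial * ν + (N + R.factorial) + 2 * h e.2 := by omega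
    rw [e1]; exact h2
  · have : h e.2 - h e.1 + 3 = p + q + r := hsum.symm
    have h4 : 4 * M ∣ N + 1 := A.N1
    -- `n ≥ R! + 2 h e.1` and the difference is at most `R`
    have h5 : R + R ≤ R.factorial := by
      have h6 : R.factorial = R * (R - 1).factorial := by
        rw [Nat.mul_factorial_pred (by omega)]
      have h7 : R - 1 ≤ (R - 1).factorial := Nat.self_le_factorial _
      rw [h6]
      calc R + R = R * 2 := by ring
        _ ≤ R * (R - 1).factorial := Nat.mul_le_mul_left R (by omega)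
    omega
  · omega

theorem family (A : Lev K M D K R h N) (hMT : MTall 2 K) (ε : ℝ) (hε : 0 < ε) :
    ∀ᶠ X : ℝ in atTop, ∃ e ∈ Pr K, X ^ (1 - ε) ≤ (ct X (h e.2 - h e.1 + 1) : ℝ) := by
  classical
  set W : ℕ := R.factorial with hW
  have hW0 : 0 < W := Nat.factorial_pos _
  have hinj : ∀ i j : Fin K, i ≠ j → h i ≠ h j := by
    intro i j hij heq
    rcases lt_trichotomy (i : ℕ) j with h1 | h1 | h1
    · have := A.inc i j h1 j.2; omega
    · exact hij (Fin.ext h1)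
    · have := A.inc j i h1 i.2; omega
  obtain ⟨δ₀, hδ₀, hMT⟩ := hMT (fun _ => W) (fun i => (N + W) + 2 * h i) (fun _ => hW0)
    (fun i => by omega)
    (by
      intro i j hij heq
      have h1 := Nat.eq_of_mul_eq_mul_left hW0 heq
      exact hinj i j hij (by omega))
    (fun q hq => A.adm q hq)
  obtain ⟨x₀, hx₀⟩ := hMT (min δ₀ ε) (lt_min hδ₀ hε) (min_le_left _ _)
  set δ := min δ₀ ε with hδ
  have hδ0 : 0 < δ := lt_min hδ₀ hε
  have hδε : δ ≤ ε := min_le_right _ _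
  have hWr : (1 : ℝ) ≤ W := by exact_mod_cast hW0
  set T : ℝ := (K : ℝ) * K + 1 with hT
  have hT1 : 1 ≤ T := by rw [hT]; nlinarith [sq_nonneg (K : ℝ)]
  have htend : Filter.Tendsto (fun X : ℝ => X ^ (ε / 2)) Filter.atTop Filter.atTop :=
    tendsto_rpow_atTop (by linarith)
  filter_upwards [htend.eventually_ge_atTop (T * (2 * (W : ℝ))), eventually_ge_atTop 1,
    eventually_ge_atTop (2 * W * x₀), eventually_ge_atTop (2 * ((N : ℝ) + W + 2 * R))]
    with X hXX₁ hX1 hXx₀ hXN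
  have hX0 : 0 < X := by linarith
  have h2W : (1 : ℝ) ≤ 2 * W := by linarith
  have hy : x₀ ≤ X / (2 * W) := by
    rw [le_div_iff₀ (by linarith)]; linarith
  have hcount := hx₀ (X / (2 * W)) hy
  have hpow : T * X ^ (1 - ε) ≤ (X / (2 * W)) ^ (1 - δ / 2) := by
    rw [Real.div_rpow hX0.le (by linarith), le_div_iff₀ (by positivity)]
    have h1 : (2 * (W : ℝ)) ^ (1 - δ / 2) ≤ 2 * W := by
      calc (2 * (W : ℝ)) ^ (1 - δ / 2) ≤ (2 * (W : ℝ)) ^ (1 : ℝ) :=
            Real.rpow_le_rpow_of_exponent_le h2W (by linarith)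
        _ = 2 * W := Real.rpow_one _
    have hXp : 0 ≤ X ^ (1 - ε) := by positivity
    calc T * X ^ (1 - ε) * (2 * (W : ℝ)) ^ (1 - δ / 2) ≤ T * X ^ (1 - ε) * (2 * W) :=
          mul_le_mul_of_nonneg_left h1 (by positivity)
      _ = X ^ (1 - ε) * (T * (2 * W)) := by ring
      _ ≤ X ^ (1 - ε) * X ^ (ε / 2) := mul_le_mul_of_nonneg_left hXX₁ hXp
      _ = X ^ (1 - ε / 2) := by
          rw [← Real.rpow_add hX0]; congr 1; ring
      _ ≤ X ^ (1 - δ / 2) := Real.rpow_le_rpow_of_exponent_le hX1 (by linarith)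
  -- pigeonhole over the pairs
  by_contra hcon
  push Not at hcon
  set B : Finset ℕ := (Icc 1 ⌊X / (2 * (W : ℝ))⌋₊).filter (fun n =>
    (∀ p : ℕ, p.Prime → p ∣ n → (X / (2 * (W : ℝ))) ^ δ < p) ∧
      2 ≤ (univ.filter (fun i : Fin K => (W * n + ((N + W) + 2 * h i)).Prime)).card) with hB
  set P : ℕ × ℕ → Finset ℕ := fun e => (Icc 1 ⌊X / (2 * (W : ℝ))⌋₊).filter (fun n =>
    (W * n + (N + W) + 2 * h e.1).Prime ∧ (W * n + (N + W) + 2 * h e.2).Prime) with hP
  have hsub : B ⊆ (Pr K).biUnion P := by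
    intro n hn
    obtain ⟨hn1, -, hn2⟩ := mem_filter.1 hn
    obtain ⟨i, hi, j, hj, hij⟩ := one_lt_card.1 (show 1 < _ from hn2)
    have hi' := (mem_filter.1 hi).2
    have hj' := (mem_filter.1 hj).2
    rw [← add_assoc] at hi' hj'
    rw [mem_biUnion]
    rcases lt_trichotomy (i : ℕ) j with h1 | h1 | h1
    · exact ⟨(i, j), mem_Pr.2 ⟨h1, j.2⟩, mem_filter.2 ⟨hn1, hi', hj'⟩⟩
    · exact absurd (Fin.ext h1) hij
    · exact ⟨(j, i), mem_Pr.2 ⟨h1, i.2⟩, mem_filter.2 ⟨hn1, hj', hi'⟩⟩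
  have hPc : ∀ e ∈ Pr K, ((P e).card : ℝ) < X ^ (1 - ε) := by
    intro e he
    refine lt_of_le_of_lt ?_ (hcon e he)
    rw [Nat.cast_le]
    unfold ct
    apply card_le_card_of_injOn (fun ν => W * ν + (N + W) + h e.1 + h e.2)
    · intro ν hν
      obtain ⟨hν1, hν2, hν3⟩ := mem_filter.1 (mem_coe.1 hν)
      rw [mem_Icc] at hν1
      have hνx : (ν : ℝ) ≤ X / (2 * W) :=
        (Nat.cast_le.2 hν1.2).trans (Nat.floor_le (by positivity))
      rw [le_div_iff₀ (by linarith)] at hνx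
      rw [mem_coe, mem_filter, mem_Icc]
      have hh1 := A.hR e.1 ((mem_Pr.1 he).1.trans (mem_Pr.1 he).2)
      have hh2 := A.hR e.2 (mem_Pr.1 he).2
      have hh : h e.1 + h e.2 ≤ 2 * R := by omega
      have hhr : (h e.1 : ℝ) + h e.2 ≤ 2 * R := by exact_mod_cast hh
      refine ⟨⟨?_, ?_⟩, A.prime_pair ν he hν2 hν3⟩
      · have : 1 ≤ W := hW0
        dsimp only
        omega
      · apply Nat.le_floor
        push_cast
        linarith
    · intro a _ b _ hab
      have h1 : W * a + (N + W) + h e.1 + h e.2 = W * b + (N + W) + h e.1 + h e.2 := hab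
      have h2 : W * a = W * b := by omega
      exact Nat.eq_of_mul_eq_mul_left hW0 h2
  have h5 : (B.card : ℝ) ≤ K * K * X ^ (1 - ε) := by
    calc (B.card : ℝ) ≤ (((Pr K).biUnion P).card : ℝ) := by exact_mod_cast card_le_card hsub
      _ ≤ ∑ e ∈ Pr K, ((P e).card : ℝ) := by exact_mod_cast card_biUnion_le
      _ ≤ ∑ e ∈ Pr K, X ^ (1 - ε) := sum_le_sum fun e he => (hPc e he).le
      _ = (Pr K).card * X ^ (1 - ε) := by rw [sum_const, nsmul_eq_mul]
      _ ≤ K * K * X ^ (1 - ε) := by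
          apply mul_le_mul_of_nonneg_right _ (by positivity)
          exact_mod_cast Pr_card K
  have h6 : 0 < X ^ (1 - ε) := by positivity
  have h7 : T * X ^ (1 - ε) ≤ (B.card : ℝ) := hpow.trans hcount
  have h8 : T * X ^ (1 - ε) = K * K * X ^ (1 - ε) + X ^ (1 - ε) := by rw [hT]; ring
  linarith

end

/-- the defects which occur often -/
def Often (m : ℕ) : Prop := ∀ ε : ℝ, 0 < ε → ∃ᶠ X : ℝ in atTop, X ^ (1 - ε) ≤ (ct X m : ℝ)

/-- one pair occurs often -/
theorem exists_often {K M : ℕ} {D : ℕ → Prop} {R : ℕ} {h : ℕ → ℕ} {N : ℕ}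
    (A : Lev K M D K R h N) (hMT : MTall 2 K) :
    ∃ e ∈ Pr K, Often (h e.2 - h e.1 + 1) := by
  classical
  by_contra hcon
  unfold Often at hcon
  push Not at hcon
  have h1 : ∀ e : ℕ × ℕ, ∃ ε : ℝ, 0 < ε ∧ (e ∈ Pr K → ∀ᶠ X : ℝ in atTop,
      (ct X (h e.2 - h e.1 + 1) : ℝ) < X ^ (1 - ε)) := by
    intro e
    by_cases he : e ∈ Pr K
    · obtain ⟨ε, hε, hX⟩ := hcon e he
      exact ⟨ε, hε, fun _ => hX⟩
    · exact ⟨1, one_pos, fun hh => absurd hh he⟩
  choose ε hε hX using h1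
  -- the minimum of the exponents
  obtain ⟨η, hη, hηle⟩ : ∃ η : ℝ, 0 < η ∧ ∀ e ∈ Pr K, η ≤ ε e := by
    rcases (Pr K).eq_empty_or_nonempty with h2 | h2
    · exact ⟨1, one_pos, by rw [h2]; simp⟩
    · obtain ⟨e0, he0, hmin⟩ := exists_min_image (Pr K) ε h2
      exact ⟨ε e0, hε e0, hmin⟩
  have h3 : ∀ᶠ X : ℝ in atTop, ∀ e ∈ Pr K, (ct X (h e.2 - h e.1 + 1) : ℝ) < X ^ (1 - ε e) :=
    (eventually_all_finset _).2 fun e he => hX e he
  obtain ⟨X, hX1, hX2, hX3⟩ := (h3.and ((family A hMT η hη).and (eventually_ge_atTop 1))).exists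
  obtain ⟨e, he, heX⟩ := hX2
  have h4 := hX1 e he
  have h5 : X ^ (1 - ε e) ≤ X ^ (1 - η) :=
    Real.rpow_le_rpow_of_exponent_le hX3 (by have := hηle e he; linarith)
  linarith

/-- bounded gaps -/
theorem bounded_gaps (M : ℕ) (hM : 0 < M) : ∃ C : ℕ, ∀ x : ℕ, ∃ m : ℕ, x ≤ m ∧ m ≤ x + C ∧
    M ∣ m ∧ Often (m + 1) := by
  by_contra hcon
  push Not at hcon
  obtain ⟨K, hK2, hMT⟩ := maynardTaoAll 1 le_rfl
  have hgap : ∀ len x0 : ℕ, ∃ x, x0 ≤ x ∧ ∀ s, x ≤ s → s ≤ x + len → M ∣ s →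
      ¬ (fun s => Often (s + 1)) s := by
    intro len x0
    obtain ⟨x, hx⟩ := hcon (x0 + len)
    exact ⟨x + x0, by omega, fun s h1 h2 h3 h4 => hx s (by omega) (by omega) h3 h4⟩
  obtain ⟨R, h, N, A⟩ := levels K M (fun s => Often (s + 1)) hM hgap K (by omega) le_rfl
  obtain ⟨e, he, hO⟩ := exists_often A hMT
  have he' := mem_Pr.1 he
  exact (A.tr e.1 e.2 he'.1 he'.2).1 hO

end Pool.Agent.V8H9.GE
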