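import Pool.Agent.V8H9.GD.Gld
import Pool.Agent.H387R2.U3

/-!
# Bounded gaps between the defects: primes in a progression which leave a good even number
-/

set_option autoImplicit false

namespace Pool.Agent.V8H9.GE

open Finset Filter Topology
open Pool.Agent.W93
open Pool.Agent.W93.PG
open Pool.Agent.W93.RD (Str pw)

/-- the exceptional even numbers -/
def Exc (C m : ℕ) : Prop := 0 < m ∧ 2 ∣ m ∧ ¬ C ≤ cnt m (m / 8) (m / 5)

theorem winP_imp (C : ℕ) : ∃ m₀ : ℕ, ∀ m : ℕ, m₀ ≤ m → 2 ∣ m → WinP (1 / 2) 1 m →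
    C ≤ cnt m (m / 8) (m / 5) := by
  have h1 : ∀ᶠ m : ℕ in atTop, (16 : ℝ) ≤ Real.log m :=
    (Real.tendsto_log_atTop.comp tendsto_natCast_atTop_atTop).eventually_ge_atTop 16
  have h2 : ∀ᶠ m : ℕ in atTop, Real.log (m : ℝ) ^ 2 * (32 * C) ≤ m := by
    have h3 : (fun x : ℝ => Real.log x ^ 2) =o[atTop] (fun x : ℝ => x) := by
      have := isLittleO_log_rpow_rpow_atTop (s := 1) 2 one_pos
      simpa using this
    have h4 := (h3.comp_tendsto tendsto_natCast_atTop_atTop).def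
      (show (0 : ℝ) < 1 / (32 * C + 1) by positivity)
    filter_upwards [h4, eventually_ge_atTop 1] with m hm hm1
    simp only [Function.comp] at hm
    rw [Real.norm_of_nonneg (by positivity), Real.norm_of_nonneg (by positivity)] at hm
    have hm0 : (0 : ℝ) ≤ m := by positivity
    have h5 : Real.log (m : ℝ) ^ 2 * (32 * C + 1) ≤ m := by
      rw [div_mul_eq_mul_div, one_mul, le_div_iff₀ (by positivity)] at hm
      exact hm
    nlinarith [sq_nonneg (Real.log (m : ℝ))]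
  obtain ⟨m₀, hm₀⟩ := eventually_atTop.1 (h1.and (h2.and (eventually_ge_atTop 100)))
  refine ⟨m₀, fun m hm _ hW => ?_⟩
  obtain ⟨hl, hC, hm100⟩ := hm₀ m hm
  have hmr : (100 : ℝ) ≤ m := by exact_mod_cast hm100
  have hy1 : ((m / 8 : ℕ) : ℝ) ≤ m / 8 := by
    have := Nat.cast_div_le (α := ℝ) (m := m) (n := 8)
    simpa using this
  have hy2 : (m : ℝ) / 5 - 1 ≤ ((m / 5 : ℕ) : ℝ) := by
    have h5 : m ≤ 5 * (m / 5) + 4 := by omega
    have h6 : (m : ℝ) ≤ 5 * ((m / 5 : ℕ) : ℝ) + 4 := by exact_mod_cast h5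
    linarith
  have hdiff : (m : ℝ) / 16 ≤ ((m / 5 : ℕ) : ℝ) - ((m / 8 : ℕ) : ℝ) := by linarith
  have hlog0 : 0 < Real.log (m : ℝ) := by linarith
  have hw := hW (m / 8) (m / 5) (by omega) (by omega) (by
    refine le_trans ?_ hdiff
    rw [pow_one]
    exact div_le_div_of_nonneg_left (by linarith) (by norm_num) hl)
  have h7 := (abs_le.1 hw).1
  have hs := Pool.Agent.W93.GB.one_le_sing m
  set Z : ℝ := Pool.Agent.H560R3.GB.sing m *
    (((m / 5 : ℕ) : ℝ) - ((m / 8 : ℕ) : ℝ)) / Real.log m ^ 2 with hZ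
  have h8 : (m : ℝ) / 16 / Real.log m ^ 2 ≤ Z := by
    rw [hZ]
    apply div_le_div_of_nonneg_right _ (by positivity)
    nlinarith
  have h9 : 2 * (C : ℝ) ≤ (m : ℝ) / 16 / Real.log m ^ 2 := by
    rw [le_div_iff₀ (by positivity)]
    linarith
  have h10 : (C : ℝ) ≤ (cnt m (m / 8) (m / 5) : ℝ) := by linarith
  exact_mod_cast h10

open Classical in
/-- few exceptional even numbers -/
theorem few_exc (C : ℕ) : ∃ k₀ : ℕ, ∀ k : ℕ, k₀ ≤ k →
    (((range (2 ^ k)).filter (Exc C)).card : ℝ) ≤ 2 ^ k / (k : ℝ) ^ 2 := by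
  obtain ⟨m₀, hm₀⟩ := winP_imp C
  obtain ⟨k₀, hk₀⟩ := pg_windows 2 2 0 1 2 m₀ le_rfl (1 / 2) (1 / 2) (by norm_num) (by norm_num)
    (fun m => C ≤ cnt m (m / 8) (m / 5)) hm₀
  refine ⟨k₀, fun k hk => ?_⟩
  have h1 := hk₀ k hk (fun _ _ => 1 / 2) (fun _ _ _ => by norm_num) (fun _ _ _ => by norm_num)
    (fun _ _ => by simp) 0 (by simp) (fun d => Exc C (RD.val 2 d)) (Classical.decPred _) (by
      intro d _ hd
      obtain ⟨h1, h2, h3⟩ := hd
      refine ⟨by omega, by omega, ?_⟩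
      rw [zero_add, Int.toNat_natCast]
      exact h3)
  have h2 : ((((range (2 ^ k)).filter (Exc C)).card : ℕ) : ℝ) ≤
      (((Str 2 k).filter (fun d => Exc C (RD.val 2 d))).card : ℝ) := by
    rw [Nat.cast_le]
    have hval : ∀ m : ℕ, m < 2 ^ k → RD.val 2 (fun j : Fin k => m / 2 ^ (j : ℕ) % 2) = m := by
      intro m hm
      unfold RD.val
      rw [Fin.sum_univ_eq_sum_range (fun j => (m / 2 ^ j % 2) * 2 ^ j) k, GD.digits_sum,
        Nat.mod_eq_of_lt hm]
    apply card_le_card_of_injOn (fun m => fun j : Fin k => m / 2 ^ (j : ℕ) % 2)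
    · intro m hm
      have hm' := mem_filter.1 (mem_coe.1 hm)
      have hm'' := mem_range.1 hm'.1
      rw [mem_coe, mem_filter]
      refine ⟨?_, ?_⟩
      · unfold Str
        rw [Fintype.mem_piFinset]
        intro j
        rw [mem_range]
        exact Nat.mod_lt _ (by norm_num)
      · rw [hval m hm'']
        exact hm'.2
    · intro m hm m' hm' heq
      have h3 := mem_range.1 (mem_filter.1 (mem_coe.1 hm)).1
      have h4 := mem_range.1 (mem_filter.1 (mem_coe.1 hm')).1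
      have h5 := congrArg (RD.val 2) heq
      dsimp only at h5
      rw [hval m h3, hval m' h4] at h5
      exact h5
  refine h2.trans ?_
  have h3 : ∑ d ∈ Str 2 k, (if Exc C (RD.val 2 d) then pw (fun _ _ => (1 : ℝ) / 2) d else 0) =
      (((Str 2 k).filter (fun d => Exc C (RD.val 2 d))).card : ℝ) * (1 / 2) ^ k := by
    rw [← sum_filter]
    have : ∀ d ∈ (Str 2 k).filter (fun d => Exc C (RD.val 2 d)),
        pw (fun _ _ => (1 : ℝ) / 2) d = (1 / 2) ^ k := by
      intro d _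
      unfold pw
      rw [prod_const, card_univ, Fintype.card_fin]
    rw [sum_congr rfl this, sum_const, nsmul_eq_mul]
  have h4 : (((Str 2 k).filter (fun d => Exc C (RD.val 2 d))).card : ℝ) * (1 / 2) ^ k ≤
      1 / (k : ℝ) ^ 2 := by
    rw [← h3]
    refine le_trans (le_of_eq ?_) h1
    apply sum_congr rfl
    intro d _
    congr
  have h5 : ((1 : ℝ) / 2) ^ k = 1 / 2 ^ k := by rw [div_pow, one_pow]
  rw [h5, mul_one_div, div_le_iff₀ (by positivity)] at h4
  calc (((Str 2 k).filter (fun d => Exc C (RD.val 2 d))).card : ℝ) ≤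
        1 / (k : ℝ) ^ 2 * 2 ^ k := h4
    _ = 2 ^ k / (k : ℝ) ^ 2 := by ring

/-- many primes in a progression -/
theorem primes_ap (F : ℕ) (hF : 0 < F) : ∃ κ : ℝ, 0 < κ ∧ ∀ᶠ y : ℕ in atTop,
    ∀ c : ℕ, c.Coprime F → κ * (y / Real.log (2 * y)) ≤
      (((Ioc (2 * y) (4 * y)).filter (fun p => p.Prime ∧ p ≡ c [MOD F])).card : ℝ) := by
  obtain ⟨x0, hx0⟩ := Pool.Agent.H387R2.Uni.siegel
  have hφ : 0 < Nat.totient F := Nat.totient_pos.2 hF
  have hφr : (0 : ℝ) < Nat.totient F := by exact_mod_cast hφ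
  refine ⟨1 / (2 * Nat.totient F), by positivity, ?_⟩
  have hlog2 : Tendsto (fun y : ℕ => Real.log (2 * (y : ℝ))) atTop atTop :=
    Real.tendsto_log_atTop.comp (tendsto_natCast_atTop_atTop.const_mul_atTop (by norm_num))
  have hpi := Pool.Agent.Helper507.PNT.pi_tendsto.comp (tendsto_natCast_atTop_atTop (R := ℝ))
  have h4 : Tendsto (fun y : ℕ => 4 * y) atTop atTop :=
    tendsto_id.const_mul_atTop' (by norm_num)
  have h2 : Tendsto (fun y : ℕ => 2 * y) atTop atTop :=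
    tendsto_id.const_mul_atTop' (by norm_num)
  have hlo := h4.eventually (hpi.eventually (lt_mem_nhds (show (9 / 10 : ℝ) < 1 by norm_num)))
  have hup := h2.eventually (hpi.eventually (gt_mem_nhds (show (1 : ℝ) < 11 / 10 by norm_num)))
  filter_upwards [hlo, hup, hlog2.eventually_ge_atTop 16,
    hlog2.eventually_ge_atTop (F : ℝ), hlog2.eventually_ge_atTop (16 * (Nat.totient F : ℝ)),
    eventually_ge_atTop x0, eventually_ge_atTop 1] with y hlo hup hl hlF hlφ hyx hy1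
  intro c hc
  simp only [Function.comp, Nat.floor_natCast] at hlo hup
  have hy : (1 : ℝ) ≤ y := by exact_mod_cast hy1
  have c4 : ((4 * y : ℕ) : ℝ) = 4 * y := by push_cast; ring
  have c2 : ((2 * y : ℕ) : ℝ) = 2 * y := by push_cast; ring
  rw [c4] at hlo
  rw [c2] at hup
  set L := Real.log (2 * (y : ℝ)) with hL
  have hL0 : 0 < L := by linarith
  have hL4 : Real.log (4 * (y : ℝ)) ≤ L + 1 := by
    have e : 4 * (y : ℝ) = 2 * (2 * y) := by ring
    rw [e, Real.log_mul (by norm_num) (by positivity)]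
    have := Real.log_two_lt_d9
    linarith
  have hL4' : L ≤ Real.log (4 * (y : ℝ)) := Real.log_le_log (by positivity) (by linarith)
  have hL40 : 0 < Real.log (4 * (y : ℝ)) := by linarith
  rw [lt_div_iff₀ (by positivity)] at hlo
  rw [div_lt_iff₀ (by positivity)] at hup
  have g4 : 3 * (y : ℝ) + 3 * y / 10 ≤ (Nat.primeCounting (4 * y) : ℝ) * L := by
    have h5 : (Nat.primeCounting (4 * y) : ℝ) * Real.log (4 * (y : ℝ)) ≤
        (Nat.primeCounting (4 * y) : ℝ) * (L * (17 / 16)) := by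
      apply mul_le_mul_of_nonneg_left _ (Nat.cast_nonneg _)
      linarith
    nlinarith
  have g2 : (Nat.primeCounting (2 * y) : ℝ) * L ≤ 11 / 5 * y := by linarith
  have gd : (y : ℝ) / L ≤ (Nat.primeCounting (4 * y) : ℝ) - Nat.primeCounting (2 * y) := by
    rw [div_le_iff₀ hL0]
    nlinarith
  -- the progression
  have hcF : (c % F).Coprime F := by
    rw [Nat.Coprime, ← Nat.gcd_rec]
    exact hc.symm
  have hsq : L ≤ L ^ 2 := by nlinarith
  have e4 := hx0 (4 * y) (by omega) F hF (by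
    rw [c4]
    refine hlF.trans (hsq.trans ?_)
    exact pow_le_pow_left₀ hL0.le hL4' 2) (c % F) (Nat.mod_lt _ hF) hcF
  have e2 := hx0 (2 * y) (by omega) F hF (by rw [c2]; exact hlF.trans hsq)
    (c % F) (Nat.mod_lt _ hF) hcF
  rw [Pool.Agent.H387R2.Uni.pi1_eq, c4] at e4
  rw [Pool.Agent.H387R2.Uni.pi1_eq, c2] at e2
  have e4' := (abs_le.1 e4).1
  have e2' := (abs_le.1 e2).2
  have herr4 : 4 * (y : ℝ) / Real.log (4 * y) ^ 6 ≤ 4 * y / L ^ 6 :=
    div_le_div_of_nonneg_left (by positivity) (by positivity) (pow_le_pow_left₀ hL0.le hL4' 6)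
  have herr : 4 * (y : ℝ) / L ^ 6 + 2 * y / L ^ 6 ≤ 1 / (2 * Nat.totient F) * (y / L) := by
    have e : 4 * (y : ℝ) / L ^ 6 + 2 * y / L ^ 6 = (6 / L ^ 5) * (y / L) := by
      field_simp; ring
    rw [e]
    apply mul_le_mul_of_nonneg_right _ (by positivity)
    rw [div_le_div_iff₀ (by positivity) (by positivity)]
    have h6 : 16 * (Nat.totient F : ℝ) ≤ L ^ 5 := by
      calc 16 * (Nat.totient F : ℝ) ≤ L := hlφ
        _ = L ^ 1 := (pow_one L).symm
        _ ≤ L ^ 5 := pow_le_pow_right₀ (by linarith) (by norm_num)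
    linarith
  have hcard : H343E.piAP (4 * y) F (c % F) - H343E.piAP (2 * y) F (c % F) ≤
      (((Ioc (2 * y) (4 * y)).filter (fun p => p.Prime ∧ p ≡ c [MOD F])).card : ℝ) := by
    unfold H343E.piAP
    rw [sub_le_iff_le_add, ← Nat.cast_add, Nat.cast_le]
    refine (card_le_card ?_).trans (card_union_le _ _)
    intro p hp
    obtain ⟨hp1, hp2, hp3⟩ := mem_filter.1 hp
    rw [mem_Icc] at hp1
    rw [mem_union, mem_filter, mem_filter, mem_Ioc, mem_Icc]
    have h7 : p ≡ c [MOD F] := hp3.trans (Nat.mod_modEq c F)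
    by_cases h8 : p ≤ 2 * y
    · right; exact ⟨⟨hp1.1, h8⟩, hp2, hp3⟩
    · left; exact ⟨⟨by omega, hp1.2⟩, hp2, h7⟩
  have hmain : 1 / (Nat.totient F : ℝ) * (y / L) ≤
      ((Nat.primeCounting (4 * y) : ℝ) - Nat.primeCounting (2 * y)) / Nat.totient F := by
    rw [one_div, ← div_eq_inv_mul]
    exact div_le_div_of_nonneg_right gd hφr.le
  have esplit : ((Nat.primeCounting (4 * y) : ℝ) - Nat.primeCounting (2 * y)) / Nat.totient F =
      (Nat.primeCounting (4 * y) : ℝ) / Nat.totient F -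
        (Nat.primeCounting (2 * y) : ℝ) / Nat.totient F := sub_div _ _ _
  have ehalf : 1 / (Nat.totient F : ℝ) * (y / L) = 1 / (2 * Nat.totient F) * (y / L) +
      1 / (2 * Nat.totient F) * (y / L) := by
    field_simp; ring
  linarith

/-- the supply of the smallest primes -/
theorem supply (F : ℕ) (hF : 0 < F) (C n0 : ℕ) : ∃ Y0 : ℕ, ∀ y, Y0 ≤ y → ∀ s : ℕ, 2 ∣ s →
    127 * y ≤ s → s ≤ 129 * y → ∀ c : ℕ, c.Coprime F → ∃ T : Finset ℕ, n0 < T.card ∧
      ∀ p ∈ T, p.Prime ∧ 2 * y < p ∧ p ≤ 4 * y ∧ p ≡ c [MOD F] ∧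
        C ≤ cnt (s + 3 - p) ((s + 3 - p) / 8) ((s + 3 - p) / 5) := by
  classical
  obtain ⟨κ, hκ, hap⟩ := primes_ap F hF
  obtain ⟨k₀, hk₀⟩ := few_exc C
  have hlog2 : Tendsto (fun y : ℕ => Real.log (2 * (y : ℝ))) atTop atTop :=
    Real.tendsto_log_atTop.comp (tendsto_natCast_atTop_atTop.const_mul_atTop (by norm_num))
  have hη : 0 < κ / (4 * ((n0 : ℝ) + 1)) := by positivity
  have hsm := (tendsto_natCast_atTop_atTop.const_mul_atTop (show (0 : ℝ) < 2 by norm_num)).eventually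
    (Pool.Agent.H387R2.Uni.log_pow_small (1 : ℝ) hη)
  obtain ⟨Y0, hY0⟩ := eventually_atTop.1 (hap.and (hsm.and
    ((hlog2.eventually_ge_atTop (520 / κ)).and ((hlog2.eventually_ge_atTop (1 : ℝ)).and
    (eventually_ge_atTop (2 ^ k₀ + 3))))))
  refine ⟨Y0, fun y hy s hs2 hs1 hs3 c hc => ?_⟩
  obtain ⟨h1, h2, h3, h4, h5⟩ := hY0 y hy
  set A := (Ioc (2 * y) (4 * y)).filter (fun p => p.Prime ∧ p ≡ c [MOD F]) with hA
  have hA' := h1 c hc
  rw [← hA] at hA'
  set L := Real.log (2 * (y : ℝ)) with hL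
  have hL0 : 0 < L := by linarith
  have hpk : 0 < 2 ^ k₀ := by positivity
  have hyr : (1 : ℝ) ≤ y := by exact_mod_cast (by omega : 1 ≤ y)
  -- the exceptional ones
  set k := Nat.log 2 (130 * y) + 1 with hk
  have hk1 : 130 * y < 2 ^ k := Nat.lt_pow_succ_log_self (by norm_num) _
  have hk2 : 2 ^ k ≤ 260 * y := by
    rw [hk, pow_succ]
    have := Nat.pow_log_le_self 2 (show 130 * y ≠ 0 by omega)
    omega
  have hkk : k₀ ≤ k := by
    by_contra hcon
    push Not at hcon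
    have : 2 ^ k < 2 ^ k₀ := Nat.pow_lt_pow_right (by norm_num) hcon
    omega
  have hkL : L ≤ k := by
    have h6 : (2 * (y : ℝ)) ≤ 2 ^ k := by
      have : (130 * (y : ℝ)) ≤ 2 ^ k := by exact_mod_cast hk1.le
      linarith
    have h7 : L ≤ Real.log (2 ^ k) := Real.log_le_log (by positivity) h6
    rw [Real.log_pow] at h7
    have h8 := Real.log_two_lt_d9
    have h9 : (0 : ℝ) ≤ k := Nat.cast_nonneg _
    nlinarith
  have hex := hk₀ k hkk
  set T := A.filter (fun p => ¬ Exc C (s + 3 - p)) with hT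
  have hsplit := card_filter_add_card_filter_not (s := A) (fun p => Exc C (s + 3 - p))
  have hbad : (A.filter (fun p => Exc C (s + 3 - p))).card ≤
      ((range (2 ^ k)).filter (Exc C)).card := by
    apply card_le_card_of_injOn (fun p => s + 3 - p)
    · intro p hp
      obtain ⟨hp1, hp2⟩ := mem_filter.1 (mem_coe.1 hp)
      rw [mem_coe, mem_filter, mem_range]
      refine ⟨?_, hp2⟩
      show s + 3 - p < 2 ^ k
      omega
    · intro a ha b hb hab
      obtain ⟨ha1, _⟩ := mem_filter.1 (mem_coe.1 ha)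
      obtain ⟨hb1, _⟩ := mem_filter.1 (mem_coe.1 hb)
      have ha2 := (mem_Ioc.1 (mem_filter.1 ha1).1).2
      have hb2 := (mem_Ioc.1 (mem_filter.1 hb1).1).2
      dsimp only at hab
      omega
  have hbad' : ((A.filter (fun p => Exc C (s + 3 - p))).card : ℝ) ≤ 260 * y / L ^ 2 := by
    calc ((A.filter (fun p => Exc C (s + 3 - p))).card : ℝ) ≤
          (((range (2 ^ k)).filter (Exc C)).card : ℝ) := by exact_mod_cast hbad
      _ ≤ 2 ^ k / (k : ℝ) ^ 2 := hex
      _ ≤ 260 * y / L ^ 2 := by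
          apply div_le_div₀ (by positivity) (by exact_mod_cast hk2) (by positivity)
          exact pow_le_pow_left₀ hL0.le hkL 2
  have hTc : (n0 : ℝ) + 1 ≤ (T.card : ℝ) := by
    have e1 : (A.card : ℝ) = ((A.filter (fun p => Exc C (s + 3 - p))).card : ℝ) + T.card := by
      rw [hT, ← Nat.cast_add, hsplit]
    have e2 : 260 * (y : ℝ) / L ^ 2 ≤ κ / 2 * (y / L) := by
      have e3 : 260 * (y : ℝ) / L ^ 2 = 260 / L * (y / L) := by
        field_simp
      rw [e3]
      apply mul_le_mul_of_nonneg_right _ (by positivity)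
      rw [div_le_iff₀ hL0]
      rw [div_le_iff₀ hκ] at h3
      nlinarith
    have e4 : (n0 : ℝ) + 1 ≤ κ / 2 * (y / L) := by
      rw [Real.rpow_one] at h2
      have h2' : L ≤ κ / (4 * ((n0 : ℝ) + 1)) * (2 * y) := h2
      rw [← mul_div_assoc, le_div_iff₀ hL0]
      have h7 : ((n0 : ℝ) + 1) * L ≤ ((n0 : ℝ) + 1) * (κ / (4 * ((n0 : ℝ) + 1)) * (2 * y)) :=
        mul_le_mul_of_nonneg_left h2' (by positivity)
      have h8 : ((n0 : ℝ) + 1) * (κ / (4 * ((n0 : ℝ) + 1)) * (2 * y)) = κ / 2 * y := by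
        field_simp; ring
      linarith
    have e5 : κ * ((y : ℝ) / L) = κ / 2 * (y / L) + κ / 2 * (y / L) := by ring
    linarith
  refine ⟨T, ?_, ?_⟩
  · have : n0 + 1 ≤ T.card := by exact_mod_cast hTc
    omega
  · intro p hp
    obtain ⟨hp1, hp2⟩ := mem_filter.1 hp
    obtain ⟨hp3, hp4, hp5⟩ := mem_filter.1 hp1
    rw [mem_Ioc] at hp3
    refine ⟨hp4, hp3.1, hp3.2, hp5, ?_⟩
    by_contra hcon
    apply hp2
    refine ⟨by omega, ?_, hcon⟩
    have hodd : p % 2 = 1 := by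
      rcases hp4.eq_two_or_odd with h | h
      · omega
      · exact h
    omega

end Pool.Agent.V8H9.GE
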