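import Pool.Agent.V8H9.GE.Lev
import Pool.Agent.V8H9.GE.Sup

/-!
# Bounded gaps between the defects: one more level
-/

set_option autoImplicit false

namespace Pool.Agent.V8H9.GE

open Finset
open Pool.Agent.W93.PG (cnt)

/-- the position of the new shift -/
theorem exists_pos (F d x : ℕ) (hF : 0 < F) : ∃ H : ℕ, x ≤ H ∧ H < x + F ∧ (F : ℤ) ∣ (H : ℤ) + d := by
  have hF' : (0 : ℤ) < F := by exact_mod_cast hF
  have h0 := Int.emod_nonneg (-(d : ℤ) - x) hF'.ne'
  have h1 := Int.emod_lt_of_pos (-(d : ℤ) - x) hF'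
  refine ⟨x + ((-(d : ℤ) - x) % F).toNat, by omega, by omega, ?_⟩
  push_cast
  rw [Int.toNat_of_nonneg h0]
  have h3 : (F : ℤ) ∣ (-(d : ℤ) - x) - (-(d : ℤ) - x) % F := Int.dvd_self_sub_emod
  have e : (x : ℤ) + (-(d : ℤ) - x) % F + d = -((-(d : ℤ) - x) - (-(d : ℤ) - x) % F) := by ring
  rw [e]; exact (dvd_neg).2 h3

/-- the primes of the new level -/
theorem exists_fam {K M : ℕ} {D : ℕ → Prop} {j R : ℕ} {h : ℕ → ℕ} {N : ℕ}
    (A : Lev K M D j R h N) : ∃ Y0 : ℕ, ∀ H d : ℕ, 128 * (Y0 + R + 200) ≤ H → 2 * d = N + 1 →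
    ((R.factorial : ℕ) : ℤ) ∣ (H : ℤ) + d → 2 ∣ H →
    ∃ (y : ℕ) (p q r : ℕ → ℕ), y ≤ H ∧
      Fam j R y (fun i => if i < j then (H : ℤ) - h i else 0) p q r ∧
      (∀ i, i < j → Tr (p i) (q i) (r i) (H - h i)) ∧
      ∀ i, i < j → ((R.factorial : ℕ) : ℤ) ∣ (p i : ℤ) - 1 + ((H : ℤ) - h i) := by
  classical
  have hF : 0 < R.factorial := Nat.factorial_pos _
  obtain ⟨Y0, hY0⟩ := supply R.factorial hF ((28 * (j + 1) + 10 * j) * 801 + 1)
    ((7 * (j + 1) + 6 * j) * 801)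
  refine ⟨Y0, fun H d hH hd hHd hH2 => ?_⟩
  obtain ⟨y, hy⟩ : ∃ y, y = H / 128 := ⟨_, rfl⟩
  have hyY : Y0 + R + 200 ≤ y := by omega
  set S : ℕ → ℤ := fun i => if i < j then (H : ℤ) - h i else 0 with hS
  have hSi : ∀ i, i < j → S i = (H : ℤ) - h i := fun i hi => by simp only [hS]; rw [if_pos hi]
  have hev : ∀ i, i < j → 2 ∣ h i := fun i hi => (dvd_mul_right 2 M).trans (A.hM i hi)
  have hsz : Sz j R y S := by
    refine ⟨by omega, fun i hi => ?_, fun i hi => ?_, fun i hi k hk => ?_,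
      fun i hi k hk hik => ?_, ?_⟩
    · rw [hSi i hi]; have := A.hR i hi; omega
    · rw [hSi i hi]; have := A.hR i hi; omega
    · rw [hSi i hi, hSi k hk]; have := A.hR k hk; omega
    · rw [hSi i hi, hSi k hk]
      rcases Nat.lt_or_gt_of_ne hik with h1 | h1
      · have := A.inc i k h1 hk; omega
      · have := A.inc k i h1 hi; omega
    · simp only [hS]; rw [if_neg (lt_irrefl j)]
  -- the residues of the smallest primes
  have hcop : ∀ i, i < j → Nat.Coprime (((1 - ((H : ℤ) - h i)) % (R.factorial : ℤ)).toNat)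
      R.factorial := by
    intro i hi
    by_contra hcon
    rw [Nat.Prime.not_coprime_iff_dvd] at hcon
    obtain ⟨l, hl, hl1, hl2⟩ := hcon
    have hlR : l ≤ R := (hl.dvd_factorial).1 hl2
    have hFz : (R.factorial : ℤ) ≠ 0 := by exact_mod_cast hF.ne'
    have h1 : (l : ℤ) ∣ (1 - ((H : ℤ) - h i)) % (R.factorial : ℤ) := by
      have := Int.natCast_dvd_natCast.2 hl1
      rwa [Int.toNat_of_nonneg (Int.emod_nonneg _ hFz)] at this
    have h2 : (l : ℤ) ∣ (R.factorial : ℤ) := Int.natCast_dvd_natCast.2 hl2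
    have h3 : (l : ℤ) ∣ 1 - ((H : ℤ) - h i) := by
      have h4 : (R.factorial : ℤ) ∣ (1 - ((H : ℤ) - h i)) -
        (1 - ((H : ℤ) - h i)) % (R.factorial : ℤ) := Int.dvd_self_sub_emod
      have h5 := dvd_add (h2.trans h4) h1
      have e : (1 - ((H : ℤ) - h i)) - (1 - ((H : ℤ) - h i)) % (R.factorial : ℤ) +
        (1 - ((H : ℤ) - h i)) % (R.factorial : ℤ) = 1 - ((H : ℤ) - h i) := by ring
      rwa [e] at h5
    rcases Nat.lt_or_ge 2 l with h6 | h6
    · apply A.g3 l hl h6 hlR i hi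
      have h7 := dvd_add (h3.mul_left 2) ((h2.trans hHd).mul_left 2)
      have e : 2 * (1 - ((H : ℤ) - h i)) + 2 * ((H : ℤ) + d) = (N : ℤ) + 2 * h i + 3 := by
        have : 2 * (d : ℤ) = N + 1 := by exact_mod_cast hd
        linarith
      rwa [e] at h7
    · have h7 : l = 2 := by have := hl.two_le; omega
      subst h7
      have h8 : (2 : ℤ) ∣ 1 - ((H : ℤ) - h i) := h3
      have h9 := hev i hi
      omega
  -- the candidates
  have hT : ∀ i, ∃ T : Finset ℕ, i < j → (7 * (j + 1) + 6 * j) * 801 < T.card ∧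
      ∀ p ∈ T, p.Prime ∧ 2 * y < p ∧ p ≤ 4 * y ∧
        ((R.factorial : ℕ) : ℤ) ∣ (p : ℤ) - 1 + ((H : ℤ) - h i) ∧
        (28 * (j + 1) + 10 * j) * 801 + 1 ≤
          cnt (H - h i + 3 - p) ((H - h i + 3 - p) / 8) ((H - h i + 3 - p) / 5) := by
    intro i
    by_cases hi : i < j
    · have h1 := hev i hi
      have h2 := A.hR i hi
      obtain ⟨T, hT1, hT2⟩ := hY0 y (by omega) (H - h i) (by omega) (by omega) (by omega) _
        (hcop i hi)
      refine ⟨T, fun _ => ⟨hT1, fun p hp => ?_⟩⟩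
      obtain ⟨g1, g2, g3, g4, g5⟩ := hT2 p hp
      refine ⟨g1, g2, g3, ?_, g5⟩
      have g6 := Nat.modEq_iff_dvd.1 g4.symm
      have hFz : (R.factorial : ℤ) ≠ 0 := by exact_mod_cast hF.ne'
      rw [Int.toNat_of_nonneg (Int.emod_nonneg _ hFz)] at g6
      have h4 : (R.factorial : ℤ) ∣ (1 - ((H : ℤ) - h i)) -
        (1 - ((H : ℤ) - h i)) % (R.factorial : ℤ) := Int.dvd_self_sub_emod
      have g7 := dvd_sub g6 h4
      have e : (p : ℤ) - (1 - ((H : ℤ) - h i)) % (R.factorial : ℤ) -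
        ((1 - ((H : ℤ) - h i)) - (1 - ((H : ℤ) - h i)) % (R.factorial : ℤ)) =
        (p : ℤ) - 1 + ((H : ℤ) - h i) := by ring
      rwa [e] at g7
    · exact ⟨∅, fun hh => absurd hh hi⟩
  choose T hT using hT
  obtain ⟨p, hp1, hp2, hp3⟩ := phase1 hsz T (fun i hi p hp => ⟨((hT i hi).2 p hp).2.1,
    ((hT i hi).2 p hp).2.2.1⟩) (fun i hi => (hT i hi).1)
  have hpr : ∀ i, i < j → 2 * y < p i ∧ p i ≤ 4 * y := fun i hi =>
    ⟨((hT i hi).2 _ (hp1 i hi)).2.1, ((hT i hi).2 _ (hp1 i hi)).2.2.1⟩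
  have hb : ∀ i, i < j → 127 * y ≤ H - h i ∧ H - h i ≤ 129 * y := by
    intro i hi
    have h1 := hsz.lo i hi
    have h2 := hsz.hi i hi
    rw [hSi i hi] at h1 h2
    have := A.hR i hi
    omega
  obtain ⟨q, hq1, hq2, hq3⟩ := phase2 hsz hpr
    (fun i => (Ioc ((H - h i + 3 - p i) / 8) ((H - h i + 3 - p i) / 5)).filter
      (fun q => q.Prime ∧ (H - h i + 3 - p i - q).Prime))
    (by
      intro i hi q hq
      have h1 := mem_Ioc.1 (mem_filter.1 hq).1
      have h2 := hb i hi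
      have h3 := hpr i hi
      omega)
    (by
      intro i hi
      have h1 := ((hT i hi).2 _ (hp1 i hi)).2.2.2.2
      unfold cnt at h1
      exact Nat.lt_of_succ_le h1)
  have hqm : ∀ i, i < j → 14 * y < q i ∧ q i ≤ 26 * y ∧ (q i).Prime ∧
      (H - h i + 3 - p i - q i).Prime := by
    intro i hi
    have h0 := hq1 i hi
    have h1 := mem_Ioc.1 (mem_filter.1 h0).1
    have h2 := hb i hi
    have h3 := hpr i hi
    exact ⟨by omega, by omega, (mem_filter.1 h0).2.1, (mem_filter.1 h0).2.2⟩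
  refine ⟨y, p, q, fun i => H - h i + 3 - p i - q i, by omega, ?_, ?_, ?_⟩
  · refine ⟨hsz, hpr, fun i hi => ⟨(hqm i hi).1, by have := (hqm i hi).2.1; omega⟩,
      fun i hi => ((hT i hi).2 _ (hp1 i hi)).1, fun i hi => (hqm i hi).2.2.1,
      fun i hi => (hqm i hi).2.2.2, fun i hi => ?_, hp2, hp3, hq2, hq3⟩
    have h1 := hSi i hi
    have h2 := hb i hi
    have h3 := hpr i hi
    have h4 := hqm i hi
    have h5 := A.hR i hi
    rw [h1]
    show ((H - h i + 3 - p i - q i : ℕ) : ℤ) = _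
    omega
  · intro i hi
    have h2 := hb i hi
    have h3 := hpr i hi
    have h4 := hqm i hi
    exact ⟨((hT i hi).2 _ (hp1 i hi)).1, h4.2.2.1, h4.2.2.2, by omega, by omega, by
      show 3 * p i + 3 * q i < H - h i + 3 - p i - q i
      omega, by
      show p i + q i + (H - h i + 3 - p i - q i) = H - h i + 3
      omega⟩
  · intro i hi
    exact ((hT i hi).2 _ (hp1 i hi)).2.2.2.1

end Pool.Agent.V8H9.GE
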