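import Pool.Agent.Y884.GR.Walk

/-!
# Bounded gaps between the defects: the walk with three jumps
-/

set_option autoImplicit false

namespace Pool.Agent.V8H9.GE

open Pool.Agent.Y884.GR

/-- the divisibility conditions on `N` -/
structure Pre (p q r : ℕ) (N : ℤ) : Prop where
  h1 : (p : ℤ) ∣ N
  h2 : (q : ℤ) ∣ N + ((p : ℤ) - 1)
  h3 : (r : ℤ) ∣ N + ((p : ℤ) + q - 2)
  f0 : ∀ l : ℕ, l.Prime → l < p → ¬ (l : ℤ) ∣ N
  f1 : ∀ l : ℕ, l.Prime → l < q → ¬ (l : ℤ) ∣ N + ((p : ℤ) - 1)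
  f1' : ∀ l : ℕ, l.Prime → l < q → ¬ (l : ℤ) ∣ N - ((p : ℤ) - 1)
  f2 : ∀ l : ℕ, l.Prime → l < r → ¬ (l : ℤ) ∣ N + ((p : ℤ) + q - 2)
  f2' : ∀ l : ℕ, l.Prime → l < r → ¬ (l : ℤ) ∣ N - ((p : ℤ) + q - 2)

/-- the conditions on the primes -/
structure Tr (p q r s : ℕ) : Prop where
  pP : p.Prime
  qP : q.Prime
  rP : r.Prime
  p2 : 2 < p
  pq : 3 * p < q
  qr : 3 * p + 3 * q < r
  sum : p + q + r = s + 3

theorem Pre.congr {p q r R : ℕ} {N N' : ℤ} (H : Pre p q r N) (hp : p.Prime) (hq : q.Prime)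
    (hr : r.Prime) (hpR : p ≤ R) (hqR : q ≤ R) (hrR : r ≤ R)
    (hd : ∀ l : ℕ, l.Prime → l ≤ R → (l : ℤ) ∣ N' - N) : Pre p q r N' := by
  have key : ∀ l : ℕ, l.Prime → l ≤ R → ∀ z : ℤ, (l : ℤ) ∣ N + z ↔ (l : ℤ) ∣ N' + z := by
    intro l hl hlR z
    have e : N' + z = (N + z) + (N' - N) := by ring
    rw [e]
    exact (dvd_add_left (hd l hl hlR)).symm
  obtain ⟨h1, h2, h3, f0, f1, f1', f2, f2'⟩ := H
  have k0 : ∀ l : ℕ, l.Prime → l ≤ R → ((l : ℤ) ∣ N ↔ (l : ℤ) ∣ N') := by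
    intro l hl hlR
    have := key l hl hlR 0
    simpa using this
  have k1 : ∀ l : ℕ, l.Prime → l ≤ R → ∀ z : ℤ, ((l : ℤ) ∣ N - z ↔ (l : ℤ) ∣ N' - z) := by
    intro l hl hlR z
    rw [sub_eq_add_neg, sub_eq_add_neg]
    exact key l hl hlR _
  exact ⟨(k0 p hp hpR).1 h1, (key q hq hqR _).1 h2, (key r hr hrR _).1 h3,
    fun l hl hlp hc => f0 l hl hlp ((k0 l hl (by omega)).2 hc),
    fun l hl hlp hc => f1 l hl hlp ((key l hl (by omega) _).2 hc),
    fun l hl hlp hc => f1' l hl hlp ((k1 l hl (by omega) _).2 hc),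
    fun l hl hlp hc => f2 l hl hlp ((key l hl (by omega) _).2 hc),
    fun l hl hlp hc => f2' l hl hlp ((k1 l hl (by omega) _).2 hc)⟩

/-- `N` is a parameter with defect `m` -/
def Gd (m N : ℕ) : Prop := ∃ p q r n s : ℕ, Tr p q r s ∧ Pre p q r ((n : ℤ) + s) ∧ n.Prime ∧
  (n + 2 * s).Prime ∧ s + 2 < n ∧ m = s + 1 ∧ N = n + s

theorem Gd.walk {m N : ℕ} (H : Gd m N) {a : ℕ → ℤ} (hw : Walk N a) :
    ∃ g : ℕ, g + m = N ∧ (g + 1).Prime ∧ (2 * N - g - 1).Prime ∧ ¬ N.Prime ∧
      IsLeast {l : ℕ | 2 ≤ l ∧ a l = 0} g ∧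
      3 ≤ ((Finset.Icc 2 g).filter (fun l => Int.gcd (a (l - 1)) (V N l) ≠ 1)).card := by
  obtain ⟨p, q, r, n, s, T, P, hn1, hn2, hbig, rfl, rfl⟩ := H
  obtain ⟨x, hx⟩ : ∃ x : ℕ → ℕ, x = fun m => if m = 0 then 0 else if m = 1 then p - 1 else
    if m = 2 then p + q - 2 else s := ⟨_, rfl⟩
  obtain ⟨w, hwd⟩ : ∃ w : ℕ → ℕ, w = fun m => if m = 0 then p else if m = 1 then q else r :=
    ⟨_, rfl⟩
  have x0 : x 0 = 0 := by rw [hx]; rfl
  have x1 : x 1 = p - 1 := by rw [hx]; rfl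
  have x2 : x 2 = p + q - 2 := by rw [hx]; rfl
  have x3 : x 3 = s := by rw [hx]; rfl
  have w0 : w 0 = p := by rw [hwd]; rfl
  have w1 : w 1 = q := by rw [hwd]; rfl
  have w2 : w 2 = r := by rw [hwd]; rfl
  have hp2 := T.p2
  have hpq := T.pq
  have hqr := T.qr
  have hsum := T.sum
  have odd : ∀ t : ℕ, t.Prime → 2 < t → t % 2 = 1 := by
    intro t ht ht2
    rcases ht.eq_two_or_odd with h | h <;> omega
  have c1 : ((p - 1 : ℕ) : ℤ) = (p : ℤ) - 1 := by
    rw [Nat.cast_sub (by omega)]; norm_num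
  have c2 : ((p + q - 2 : ℕ) : ℤ) = (p : ℤ) + q - 2 := by
    rw [Nat.cast_sub (by omega)]; norm_num
  have hch : Chain x w 0 3 n := by
    constructor
    · norm_num
    · intro m _ hm
      interval_cases m
      · rw [w0]; exact T.pP
      · rw [w1]; exact T.qP
      · rw [w2]; exact T.rP
    · intro m _ hm
      interval_cases m
      · rw [w0]; exact odd p T.pP hp2
      · rw [w1]; exact odd q T.qP (by omega)
      · rw [w2]; exact odd r T.rP (by omega)
    · intro m _ hm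
      interval_cases m
      · rw [x0, x1, w0]; omega
      · rw [x1, x2, w1]; omega
      · rw [x2, x3, w2]; omega
    · intro m _ hm
      interval_cases m
      · rw [x0, w0]; omega
      · rw [x1, w1]; omega
      · rw [x2, w2]; omega
    · intro m _ hm
      interval_cases m
      · rw [x0, x3, w0]
        apply Int.natCast_dvd_natCast.1
        push_cast
        rw [add_zero]; exact P.h1
      · rw [x1, x3, w1]
        apply Int.natCast_dvd_natCast.1
        push_cast [c1]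
        exact P.h2
      · rw [x2, x3, w2]
        apply Int.natCast_dvd_natCast.1
        push_cast [c2]
        exact P.h3
    · intro m _ hm l hl hlt hd
      have hd' := Int.natCast_dvd_natCast.2 hd
      interval_cases m
      · rw [x0, x3] at hd'
        rw [w0] at hlt
        push_cast at hd'
        rw [add_zero] at hd'
        exact P.f0 l hl hlt hd'
      · rw [x1, x3] at hd'
        rw [w1] at hlt
        push_cast [c1] at hd'
        exact P.f1 l hl hlt hd'
      · rw [x2, x3] at hd'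
        rw [w2] at hlt
        push_cast [c2] at hd'
        exact P.f2 l hl hlt hd'
    · intro m _ hm l hl hlt hd
      interval_cases m
      · rw [x0, x3] at hd
        rw [w0] at hlt
        push_cast at hd
        rw [add_zero, sub_zero] at hd
        exact P.f0 l hl hlt hd
      · rw [x0, x1, x3] at hd
        rw [w1] at hlt
        rw [c1] at hd
        push_cast at hd
        rw [add_zero] at hd
        exact P.f1' l hl hlt hd
      · rw [x0, x2, x3] at hd
        rw [w2] at hlt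
        rw [c2] at hd
        push_cast at hd
        rw [add_zero] at hd
        exact P.f2' l hl hlt hd
    · rw [x0]; simpa using hn1
    · rw [x3]; exact hn2
    · rw [x3]; exact hbig
  have hN : n + x 0 + x 3 = n + s := by rw [x0, x3]; ring
  rw [← hN] at hw
  obtain ⟨g, hg1, hg2, hg3⟩ := hch.finish hw
  rw [hN] at hg3
  rw [x0] at hg1
  refine ⟨g, by omega, by
    have e : g + 1 = n := by omega
    rw [e]; exact hn1, by
    have e : 2 * (n + s) - g - 1 = n + 2 * s := by omega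
    rw [e]; exact hn2, ?_, hg2, hg3⟩
  intro hpr
  have hd : p ∣ n + s := by
    apply Int.natCast_dvd_natCast.1
    push_cast
    exact P.h1
  rcases (Nat.dvd_prime hpr).mp hd with h7 | h7
  · omega
  · omega

end Pool.Agent.V8H9.GE
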