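import Pool.Agent.V8H9.GE.Rsd
import Pool.Agent.V8H9.GE.Wlk

/-!
# Bounded gaps between the defects: the levels
-/

set_option autoImplicit false

namespace Pool.Agent.V8H9.GE

open Finset

theorem Rz.congr {j : ℕ} {S : ℕ → ℤ} {p q r : ℕ → ℕ} {l : ℕ} {ρ L : ℤ} (H : Rz j S p q r l ρ)
    (hd : (l : ℤ) ∣ L - ρ) : Rz j S p q r l L := by
  have key : ∀ z : ℤ, (l : ℤ) ∣ ρ + z ↔ (l : ℤ) ∣ L + z := by
    intro z
    have e : L + z = (ρ + z) + (L - ρ) := by ring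
    rw [e]
    exact (dvd_add_left hd).symm
  have k1 : ∀ z : ℤ, (l : ℤ) ∣ ρ - z ↔ (l : ℤ) ∣ L - z := by
    intro z; rw [sub_eq_add_neg, sub_eq_add_neg]; exact key _
  have k2 : ∀ z w : ℤ, (l : ℤ) ∣ ρ - z + w ↔ (l : ℤ) ∣ L - z + w := by
    intro z w
    have e1 : ρ - z + w = ρ + (-z + w) := by ring
    have e2 : L - z + w = L + (-z + w) := by ring
    rw [e1, e2]; exact key _
  have k3 : ∀ z w : ℤ, (l : ℤ) ∣ ρ - z - w ↔ (l : ℤ) ∣ L - z - w := by
    intro z w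
    have e1 : ρ - z - w = ρ + (-z - w) := by ring
    have e2 : L - z - w = L + (-z - w) := by ring
    rw [e1, e2]; exact key _
  obtain ⟨t1, t2, t3, f0, f1, f1', f2, f2', g0, g3, g1⟩ := H
  exact ⟨fun i hi h => (k1 _).1 (t1 i hi h), fun i hi h => (k2 _ _).1 (t2 i hi h),
    fun i hi h => (k2 _ _).1 (t3 i hi h), fun i hi h hc => f0 i hi h ((k1 _).2 hc),
    fun i hi h hc => f1 i hi h ((k2 _ _).2 hc), fun i hi h hc => f1' i hi h ((k3 _ _).2 hc),
    fun i hi h hc => f2 i hi h ((k2 _ _).2 hc), fun i hi h hc => f2' i hi h ((k3 _ _).2 hc),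
    fun i hi hc => g0 i hi ((k1 _).2 hc), fun i hi hc => g3 i hi ((k2 _ _).2 hc),
    fun i hi hc => g1 i hi ((k3 _ _).2 hc)⟩

/-- `j` shifts with a base -/
structure Lev (K M : ℕ) (D : ℕ → Prop) (j R : ℕ) (h : ℕ → ℕ) (N : ℕ) : Prop where
  M0 : 0 < M
  R1 : 8 * K + 3 ≤ R
  M1 : 4 * M ≤ R
  hM : ∀ i, i < j → 2 * M ∣ h i
  N1 : 4 * M ∣ N + 1
  hR : ∀ i, i < j → h i ≤ R
  inc : ∀ i k, i < k → k < j → h i < h k
  g0 : ∀ l : ℕ, l.Prime → l ≤ R → ∀ i, i < j → ¬ (l : ℤ) ∣ (N : ℤ) + 2 * h i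
  g3 : ∀ l : ℕ, l.Prime → 2 < l → l ≤ R → ∀ i, i < j → ¬ (l : ℤ) ∣ (N : ℤ) + 2 * h i + 3
  g1 : ∀ l : ℕ, l.Prime → 2 < l → l ≤ R → ∀ i, i < j → ¬ (l : ℤ) ∣ (N : ℤ) + 2 * h i - 1
  tr : ∀ i k, i < k → k < j → ¬ D (h k - h i) ∧ ∃ p q r : ℕ, Tr p q r (h k - h i) ∧ r ≤ R ∧
    Pre p q r ((N : ℤ) + h i + h k)

theorem lev_one (K M : ℕ) (D : ℕ → Prop) (hM : 0 < M) :
    ∃ (R : ℕ) (h : ℕ → ℕ) (N : ℕ), Lev K M D 1 R h N := by
  obtain ⟨R, hR⟩ : ∃ R, R = 8 * K + 3 + 4 * M := ⟨_, rfl⟩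
  have hf : 0 < R.factorial := Nat.factorial_pos _
  have hN : ((R.factorial - 1 : ℕ) : ℤ) = (R.factorial : ℤ) - 1 := by
    rw [Nat.cast_sub hf]; norm_num
  have hl : ∀ l : ℕ, l.Prime → l ≤ R → (l : ℤ) ∣ (R.factorial : ℤ) := fun l hl hlR =>
    Int.natCast_dvd_natCast.2 ((hl.dvd_factorial).2 hlR)
  refine ⟨R, fun _ => 0, R.factorial - 1, ⟨hM, by omega, by omega, fun i _ => dvd_zero _, ?_,
    fun i _ => Nat.zero_le _, fun i k h1 h2 => by omega, ?_, ?_, ?_, fun i k h1 h2 => by omega⟩⟩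
  · rw [Nat.sub_add_cancel hf]
    exact Nat.dvd_factorial (by omega) (by omega)
  · intro l hlp hlR i _ hd
    rw [hN] at hd
    have h1 := dvd_sub hd (hl l hlp hlR)
    have e : (R.factorial : ℤ) - 1 + 2 * ((0 : ℕ) : ℤ) - R.factorial = -1 := by push_cast; ring
    rw [e] at h1
    have := hlp.one_lt
    exact not_dvd_small (l := l) (by norm_num) (by omega) (by omega) h1
  · intro l hlp hl2 hlR i _ hd
    rw [hN] at hd
    have h1 := dvd_sub hd (hl l hlp hlR)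
    have e : (R.factorial : ℤ) - 1 + 2 * ((0 : ℕ) : ℤ) + 3 - R.factorial = 2 := by push_cast; ring
    rw [e] at h1
    exact not_dvd_small (l := l) (by norm_num) (by omega) (by omega) h1
  · intro l hlp hl2 hlR i _ hd
    rw [hN] at hd
    have h1 := dvd_sub hd (hl l hlp hlR)
    have e : (R.factorial : ℤ) - 1 + 2 * ((0 : ℕ) : ℤ) - 1 - R.factorial = -2 := by
      push_cast; ring
    rw [e] at h1
    exact not_dvd_small (l := l) (by norm_num) (by omega) (by omega) h1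

/-- the small primes in the new level -/
theorem small_pre {l p q r : ℕ} {L s g : ℤ} (hl : l.Prime) (hq : q.Prime) (hr : r.Prime)
    (hlq : l < q) (hlr : l < r)
    (hsum : (r : ℤ) = s + 3 - p - q) (hA1 : (l : ℤ) ∣ L + 1) (hA2 : (l : ℤ) ∣ (p : ℤ) - 1 + s)
    (heven : (2 : ℤ) ∣ s) (hg : g = L - 2 * s) (hg0 : ¬ (l : ℤ) ∣ g)
    (hg1 : 2 < l → ¬ (l : ℤ) ∣ g - 1) :
    ¬ (l : ℤ) ∣ L - s ∧ ¬ (l : ℤ) ∣ L - s + ((p : ℤ) - 1) ∧ ¬ (l : ℤ) ∣ L - s - ((p : ℤ) - 1) ∧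
    ¬ (l : ℤ) ∣ L - s + ((p : ℤ) + q - 2) ∧ ¬ (l : ℤ) ∣ L - s - ((p : ℤ) + q - 2) := by
  have hndp : ∀ P : ℕ, P.Prime → l < P → ¬ (l : ℤ) ∣ (P : ℤ) := by
    intro P hP hlP hd
    have h1 := Int.natCast_dvd_natCast.1 hd
    rcases (Nat.dvd_prime hP).1 h1 with h2 | h2
    · exact hl.one_lt.ne' h2
    · omega
  refine ⟨fun hd => ?_, fun hd => ?_, fun hd => ?_, fun hd => ?_, fun hd => ?_⟩
  · have h1 : (l : ℤ) ∣ 1 + s := by
      have h2 := dvd_sub hA1 hd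
      have e : L + 1 - (L - s) = 1 + s := by ring
      rwa [e] at h2
    rcases Nat.lt_or_ge 2 l with h3 | h3
    · apply hg1 h3
      have h4 := dvd_sub hA1 (h1.mul_left 2)
      have e : L + 1 - 2 * (1 + s) = g - 1 := by rw [hg]; ring
      rwa [e] at h4
    · have h4 : l = 2 := by have := hl.two_le; omega
      subst h4
      have h5 : (2 : ℤ) ∣ 1 + s := h1
      omega
  · apply hg0
    have h2 := dvd_sub hd hA2
    have e : L - s + ((p : ℤ) - 1) - ((p : ℤ) - 1 + s) = g := by rw [hg]; ring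
    rwa [e] at h2
  · have h2 := dvd_add hd hA2
    have e : L - s - ((p : ℤ) - 1) + ((p : ℤ) - 1 + s) = L := by ring
    rw [e] at h2
    have h3 := dvd_sub hA1 h2
    have e' : L + 1 - L = 1 := by ring
    rw [e'] at h3
    have := hl.one_lt
    exact not_dvd_small (l := l) (by norm_num) (by omega) (by omega) h3
  · apply hndp r hr hlr
    have h2 := dvd_sub hA1 hd
    have e : L + 1 - (L - s + ((p : ℤ) + q - 2)) = r := by rw [hsum]; ring
    rwa [e] at h2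
  · apply hndp q hq hlq
    have h2 := dvd_sub (dvd_sub hA1 hA2) hd
    have e : L + 1 - ((p : ℤ) - 1 + s) - (L - s - ((p : ℤ) + q - 2)) = q := by ring
    rwa [e] at h2

/-- the new base -/
theorem exists_base {R R' N H : ℕ} (ρ : ℕ → ℤ) :
    ∃ N' : ℕ, (∀ l : ℕ, l ∣ R.factorial → (l : ℤ) ∣ (N' : ℤ) - N) ∧
      ∀ l : ℕ, l.Prime → R < l → l ≤ R' → (l : ℤ) ∣ (N' : ℤ) + 2 * H - ρ l := by
  classical
  set T : Finset ℕ := insert 0 ((Ioc R R').filter Nat.Prime) with hT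
  set s : ℕ → ℕ := fun l => if l = 0 then R.factorial else l with hs
  set a : ℕ → ℕ := fun l => if l = 0 then N else ((ρ l - 2 * H) % (l : ℤ)).toNat with ha
  have hf : 0 < R.factorial := Nat.factorial_pos _
  have hTm : ∀ l ∈ T, l ≠ 0 → R < l ∧ l ≤ R' ∧ l.Prime := by
    intro l hl hl0
    rw [hT, mem_insert, mem_filter, mem_Ioc] at hl
    rcases hl with h | h
    · exact absurd h hl0
    · exact ⟨h.1.1, h.1.2, h.2⟩
  have hs0 : ∀ l ∈ T, s l ≠ 0 := by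
    intro l hl
    simp only [hs]
    split_ifs with h
    · exact hf.ne'
    · exact h
  have hcop : ∀ l : ℕ, l.Prime → R < l → Nat.Coprime R.factorial l := by
    intro l hl hRl
    rw [Nat.coprime_comm, hl.coprime_iff_not_dvd, hl.dvd_factorial]
    omega
  have hpair : Set.Pairwise (T : Set ℕ) (Function.onFun Nat.Coprime s) := by
    intro u hu v hv huv
    show Nat.Coprime (s u) (s v)
    simp only [hs]
    by_cases h1 : u = 0
    · have h2 : v ≠ 0 := fun h => huv (h1.trans h.symm)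
      rw [if_pos h1, if_neg h2]
      have := hTm v hv h2
      exact hcop v this.2.2 this.1
    · rw [if_neg h1]
      by_cases h2 : v = 0
      · rw [if_pos h2]
        have := hTm u hu h1
        exact (hcop u this.2.2 this.1).symm
      · rw [if_neg h2]
        exact (Nat.coprime_primes (hTm u hu h1).2.2 (hTm v hv h2).2.2).2 huv
  obtain ⟨N', hN'⟩ := Nat.chineseRemainderOfFinset a s T hs0 hpair
  refine ⟨N', ?_, ?_⟩
  · intro l hl
    have h1 := hN' 0 (by rw [hT]; exact mem_insert_self _ _)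
    have h2 : (R.factorial : ℤ) ∣ (N : ℤ) - N' := by
      have := Nat.modEq_iff_dvd.1 h1
      simpa [hs, ha] using this
    have h3 : (l : ℤ) ∣ (N : ℤ) - N' := (Int.natCast_dvd_natCast.2 hl).trans h2
    have e : (N' : ℤ) - N = -((N : ℤ) - N') := by ring
    rw [e]; exact (dvd_neg).2 h3
  · intro l hl hRl hlR'
    have hl0 : l ≠ 0 := hl.ne_zero
    have h1 := hN' l (by
      rw [hT, mem_insert, mem_filter, mem_Ioc]; exact Or.inr ⟨⟨hRl, hlR'⟩, hl⟩)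
    have h2 : (l : ℤ) ∣ (((ρ l - 2 * H) % (l : ℤ)).toNat : ℤ) - (N' : ℤ) := by
      have := Nat.modEq_iff_dvd.1 h1
      simp only [hs, ha, if_neg hl0] at this
      exact this
    rw [Int.toNat_of_nonneg (Int.emod_nonneg _ (by exact_mod_cast hl0))] at h2
    have h3 : (l : ℤ) ∣ (ρ l - 2 * H) - (ρ l - 2 * H) % l := Int.dvd_self_sub_emod
    have h4 := dvd_add h2 h3
    have e : ((ρ l - 2 * (H : ℤ)) % (l : ℤ) - (N' : ℤ)) +
      (ρ l - 2 * H - (ρ l - 2 * H) % l) = -((N' : ℤ) + 2 * H - ρ l) := by ring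
    rw [e] at h4
    exact (dvd_neg).1 h4

end Pool.Agent.V8H9.GE
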