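import Pool.Agent.V8H9.GE.Seq
import Pool.Agent.V8H9.GD.Res

/-!
# Bounded gaps between the defects: the residues at the large primes
-/

set_option autoImplicit false

namespace Pool.Agent.V8H9.GE

open Finset

/-- the primes of one level -/
structure Fam (j R y : ℕ) (S : ℕ → ℤ) (p q r : ℕ → ℕ) : Prop where
  sz : Sz j R y S
  pr : ∀ i, i < j → 2 * y < p i ∧ p i ≤ 4 * y
  qr : ∀ i, i < j → 14 * y < q i ∧ q i ≤ 33 * y
  pP : ∀ i, i < j → (p i).Prime
  qP : ∀ i, i < j → (q i).Prime
  rP : ∀ i, i < j → (r i).Prime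
  sum : ∀ i, i < j → (r i : ℤ) = S i + 3 - (p i : ℤ) - q i
  up : ∀ i, i < j → UP j S i (p i)
  bp : ∀ i, i < j → ∀ k, k < j → i ≠ k → BP S i k (p i) (p k)
  uq : ∀ i, i < j → UQ j S p i (q i)
  bq : ∀ i, i < j → ∀ k, k < j → i ≠ k → BQ S p i k (q i) (q k)

/-- the conditions on the residue `ρ` modulo `l` -/
structure Rz (j : ℕ) (S : ℕ → ℤ) (p q r : ℕ → ℕ) (l : ℕ) (ρ : ℤ) : Prop where
  t1 : ∀ i, i < j → l = p i → (l : ℤ) ∣ ρ - S i
  t2 : ∀ i, i < j → l = q i → (l : ℤ) ∣ ρ - S i + ((p i : ℤ) - 1)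
  t3 : ∀ i, i < j → l = r i → (l : ℤ) ∣ ρ - S i + ((p i : ℤ) + q i - 2)
  f0 : ∀ i, i < j → l < p i → ¬ (l : ℤ) ∣ ρ - S i
  f1 : ∀ i, i < j → l < q i → ¬ (l : ℤ) ∣ ρ - S i + ((p i : ℤ) - 1)
  f1' : ∀ i, i < j → l < q i → ¬ (l : ℤ) ∣ ρ - S i - ((p i : ℤ) - 1)
  f2 : ∀ i, i < j → l < r i → ¬ (l : ℤ) ∣ ρ - S i + ((p i : ℤ) + q i - 2)
  f2' : ∀ i, i < j → l < r i → ¬ (l : ℤ) ∣ ρ - S i - ((p i : ℤ) + q i - 2)
  g0 : ∀ k, k ≤ j → ¬ (l : ℤ) ∣ ρ - 2 * S k
  g3 : ∀ k, k ≤ j → ¬ (l : ℤ) ∣ ρ - 2 * S k + 3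
  g1 : ∀ k, k ≤ j → ¬ (l : ℤ) ∣ ρ - 2 * S k - 1

theorem not_dvd_small {l : ℕ} {z : ℤ} (h0 : z ≠ 0) (h1 : z < l) (h2 : -(l : ℤ) < z) :
    ¬ (l : ℤ) ∣ z := by
  intro hd
  have := Int.le_of_dvd (abs_pos.2 h0) ((dvd_abs _ _).2 hd)
  have h3 : |z| < l := abs_lt.2 ⟨h2, h1⟩
  linarith

section

variable {j R y : ℕ} {S : ℕ → ℤ} {p q r : ℕ → ℕ}

theorem Fam.rr (F : Fam j R y S p q r) (i : ℕ) (hi : i < j) : 88 * y < r i ∧ r i ≤ 120 * y := by
  have h1 := F.sum i hi
  have h2 := F.pr i hi
  have h3 := F.qr i hi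
  have h4 := F.sz.lo i hi
  have h5 := F.sz.hi i hi
  have h6 := F.sz.y0
  omega

theorem Fam.injp (F : Fam j R y S p q r) {i k : ℕ} (hi : i < j) (hk : k < j) (h : p i = p k) :
    i = k := by
  by_contra hne
  exact (F.bp i hi k hk hne).b4 h

theorem Fam.injq (F : Fam j R y S p q r) {i k : ℕ} (hi : i < j) (hk : k < j) (h : q i = q k) :
    i = k := by
  by_contra hne
  exact (F.bq i hi k hk hne).b5 h

theorem Fam.injr (F : Fam j R y S p q r) {i k : ℕ} (hi : i < j) (hk : k < j) (h : r i = r k) :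
    i = k := by
  by_contra hne
  apply (F.bq i hi k hk hne).b6
  have h1 := F.sum i hi
  have h2 := F.sum k hk
  rw [← h1, ← h2, h]

theorem rz_p (F : Fam j R y S p q r) {k : ℕ} (hk : k < j) : Rz j S p q r (p k) (S k) := by
  have hy := F.sz.y0
  have hpk := F.pr k hk
  constructor
  · intro i hi h
    have := F.injp hk hi h
    subst this
    simp
  · intro i hi h
    have := F.qr i hi
    omega
  · intro i hi h
    have := F.rr i hi
    omega
  · intro i hi h
    have hne : i ≠ k := by rintro rfl; omega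
    have h1 := F.sz.near i hi k hk
    have h2 := F.sz.near k hk i hi
    have h3 := F.sz.ne k hk i hi hne.symm
    apply not_dvd_small <;> omega
  · intro i hi h
    by_cases hik : i = k
    · subst hik
      apply not_dvd_small <;> omega
    · exact (F.bp k hk i hi (Ne.symm hik)).b1
  · intro i hi h
    by_cases hik : i = k
    · subst hik
      apply not_dvd_small <;> omega
    · exact (F.bp k hk i hi (Ne.symm hik)).b2
  · intro i hi h
    exact (F.uq i hi).u1 k hk
  · intro i hi h
    exact (F.uq i hi).u2 k hk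
  · intro l hl
    have := F.up k hk l hl 0 (by norm_num) (by norm_num)
    simpa using this
  · intro l hl
    exact F.up k hk l hl 3 (by norm_num) (by norm_num)
  · intro l hl
    exact F.up k hk l hl (-1) (by norm_num) (by norm_num)

theorem rz_q (F : Fam j R y S p q r) {k : ℕ} (hk : k < j) :
    Rz j S p q r (q k) (S k - ((p k : ℤ) - 1)) := by
  have hy := F.sz.y0
  have hpk := F.pr k hk
  have hqk := F.qr k hk
  constructor
  · intro i hi h
    have := F.pr i hi
    omega
  · intro i hi h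
    have := F.injq hk hi h
    subst this
    have e : S k - ((p k : ℤ) - 1) - S k + ((p k : ℤ) - 1) = 0 := by ring
    rw [e]; exact dvd_zero _
  · intro i hi h
    have := F.rr i hi
    omega
  · intro i hi h
    have := F.pr i hi
    omega
  · intro i hi h
    have hne : i ≠ k := by rintro rfl; omega
    have h1 := F.sz.near i hi k hk
    have h2 := F.sz.near k hk i hi
    have h3 := (F.bp k hk i hi hne.symm).b3
    have h4 := F.pr i hi
    apply not_dvd_small <;> omega
  · intro i hi h
    have hne : i ≠ k := by rintro rfl; omega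
    have h1 := F.sz.near i hi k hk
    have h2 := F.sz.near k hk i hi
    have h4 := F.pr i hi
    apply not_dvd_small <;> omega
  · intro i hi h
    by_cases hik : i = k
    · subst hik
      apply not_dvd_small <;> omega
    · have := (F.bq k hk i hi (Ne.symm hik)).b1
      have e : S k - ((p k : ℤ) - 1) - S i + ((p i : ℤ) + q i - 2) =
        S k - S i - ((p k : ℤ) - 1) + ((p i : ℤ) + q i - 2) := by ring
      rw [e]; exact this
  · intro i hi h
    by_cases hik : i = k
    · subst hik
      intro hd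
      have h1 : (q i : ℤ) ∣ 2 * (p i : ℤ) - 3 := by
        have h2 := dvd_add hd (dvd_refl (q i : ℤ))
        have e : S i - ((p i : ℤ) - 1) - S i - ((p i : ℤ) + q i - 2) + q i =
          -(2 * (p i : ℤ) - 3) := by ring
        rw [e] at h2
        exact (dvd_neg).1 h2
      exact not_dvd_small (l := q i) (by omega) (by omega) (by omega) h1
    · have := (F.bq k hk i hi (Ne.symm hik)).b2
      have e : S k - ((p k : ℤ) - 1) - S i - ((p i : ℤ) + q i - 2) =
        S k - S i - ((p k : ℤ) - 1) - ((p i : ℤ) + q i - 2) := by ring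
      rw [e]; exact this
  · intro l hl
    have := (F.uq k hk).u3 l hl 0 (by norm_num) (by norm_num)
    simpa using this
  · intro l hl
    exact (F.uq k hk).u3 l hl 3 (by norm_num) (by norm_num)
  · intro l hl
    exact (F.uq k hk).u3 l hl (-1) (by norm_num) (by norm_num)

theorem rz_r (F : Fam j R y S p q r) {k : ℕ} (hk : k < j) : Rz j S p q r (r k) (-1) := by
  have hy := F.sz.y0
  have hpk := F.pr k hk
  have hqk := F.qr k hk
  have hrk := F.rr k hk
  have hsum := F.sum k hk
  constructor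
  · intro i hi h
    have := F.pr i hi
    omega
  · intro i hi h
    have := F.qr i hi
    omega
  · intro i hi h
    have := F.injr hk hi h
    subst this
    have e : -1 - S k + ((p k : ℤ) + q k - 2) = -(r k : ℤ) := by rw [hsum]; ring
    rw [e]; exact (dvd_neg).2 dvd_rfl
  · intro i hi h
    have := F.pr i hi
    omega
  · intro i hi h
    have := F.qr i hi
    omega
  · intro i hi h
    have := F.qr i hi
    omega
  · intro i hi h
    have hne : i ≠ k := by rintro rfl; omega
    have h1 := (F.bq k hk i hi hne.symm).b3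
    rw [← hsum] at h1
    intro hd
    apply h1
    have e : 1 + S i - ((p i : ℤ) + q i - 2) = -(-1 - S i + ((p i : ℤ) + q i - 2)) := by ring
    rw [e]; exact (dvd_neg).2 hd
  · intro i hi h
    have hne : i ≠ k := by rintro rfl; omega
    have h1 := (F.bq k hk i hi hne.symm).b4
    rw [← hsum] at h1
    intro hd
    apply h1
    have e : 1 + S i + ((p i : ℤ) + q i - 2) = -(-1 - S i - ((p i : ℤ) + q i - 2)) := by ring
    rw [e]; exact (dvd_neg).2 hd
  · intro l hl
    rcases Nat.lt_or_ge l j with h | h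
    · have h1 := (F.uq k hk).u4 l h 1 (by norm_num) (by norm_num)
      rw [← hsum] at h1
      intro hd
      apply h1
      have e : 2 * S l + 1 = -(-1 - 2 * S l) := by ring
      rw [e]; exact (dvd_neg).2 hd
    · have : l = j := by omega
      subst this
      rw [F.sz.top]
      apply not_dvd_small <;> omega
  · intro l hl
    rcases Nat.lt_or_ge l j with h | h
    · have h1 := (F.uq k hk).u4 l h (-2) (by norm_num) (by norm_num)
      rw [← hsum] at h1
      intro hd
      apply h1
      have e : 2 * S l + -2 = -(-1 - 2 * S l + 3) := by ring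
      rw [e]; exact (dvd_neg).2 hd
    · have : l = j := by omega
      subst this
      rw [F.sz.top]
      apply not_dvd_small <;> omega
  · intro l hl
    rcases Nat.lt_or_ge l j with h | h
    · have h1 := (F.uq k hk).u4 l h 2 (by norm_num) (by norm_num)
      rw [← hsum] at h1
      intro hd
      apply h1
      have e : 2 * S l + 2 = -(-1 - 2 * S l - 1) := by ring
      rw [e]; exact (dvd_neg).2 hd
    · have : l = j := by omega
      subst this
      rw [F.sz.top]
      apply not_dvd_small <;> omega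

/-- the residue exists for every prime greater than `R` -/
theorem exists_rz (F : Fam j R y S p q r) (hR : 8 * j + 3 ≤ R) {l : ℕ} (hl : l.Prime)
    (hRl : R < l) : ∃ ρ : ℤ, Rz j S p q r l ρ := by
  classical
  by_cases h1 : ∃ k, k < j ∧ l = p k
  · obtain ⟨k, hk, rfl⟩ := h1
    exact ⟨_, rz_p F hk⟩
  by_cases h2 : ∃ k, k < j ∧ l = q k
  · obtain ⟨k, hk, rfl⟩ := h2
    exact ⟨_, rz_q F hk⟩
  by_cases h3 : ∃ k, k < j ∧ l = r k
  · obtain ⟨k, hk, rfl⟩ := h3
    exact ⟨_, rz_r F hk⟩
  set f : ℕ → ℕ → ℤ := fun t i =>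
    if t = 0 then - S i
    else if t = 1 then - S i + ((p i : ℤ) - 1)
    else if t = 2 then - S i - ((p i : ℤ) - 1)
    else if t = 3 then - S i + ((p i : ℤ) + q i - 2)
    else - S i - ((p i : ℤ) + q i - 2) with hf
  set g : ℕ → ℕ → ℤ := fun t k =>
    if t = 0 then - (2 * S k) else if t = 1 then - (2 * S k) + 3 else - (2 * S k) - 1 with hg
  set V : Finset ℤ := (range 5 ×ˢ range j).image (fun x : ℕ × ℕ => f x.1 x.2) ∪
    (range 3 ×ˢ range (j + 1)).image (fun x : ℕ × ℕ => g x.1 x.2) with hV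
  have hVc : V.card < l := by
    have h4 : V.card ≤ 5 * j + 3 * (j + 1) := by
      rw [hV]
      refine (card_union_le _ _).trans (add_le_add (card_image_le.trans ?_)
        (card_image_le.trans ?_))
      · rw [card_product, card_range, card_range]
      · rw [card_product, card_range, card_range]
    omega
  obtain ⟨ρ, hρ⟩ := Pool.Agent.V8H9.GD.avoid hl.pos V hVc
  have kf : ∀ t i, t < 5 → i < j → ¬ (l : ℤ) ∣ ρ + f t i := by
    intro t i ht hi
    apply hρ
    rw [hV, mem_union]; left
    exact mem_image.2 ⟨(t, i), by rw [mem_product, mem_range, mem_range]; exact ⟨ht, hi⟩, rfl⟩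
  have kg : ∀ t i, t < 3 → i ≤ j → ¬ (l : ℤ) ∣ ρ + g t i := by
    intro t i ht hi
    apply hρ
    rw [hV, mem_union]; right
    exact mem_image.2 ⟨(t, i), by
      rw [mem_product, mem_range, mem_range]; exact ⟨ht, by dsimp only; omega⟩, rfl⟩
  refine ⟨ρ, fun i hi h => absurd ⟨i, hi, h⟩ h1, fun i hi h => absurd ⟨i, hi, h⟩ h2,
    fun i hi h => absurd ⟨i, hi, h⟩ h3, fun i hi _ => ?_, fun i hi _ => ?_, fun i hi _ => ?_,
    fun i hi _ => ?_, fun i hi _ => ?_, fun i hi => ?_, fun i hi => ?_, fun i hi => ?_⟩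
  · have := kf 0 i (by norm_num) hi
    simp only [hf] at this
    norm_num at this
    rw [sub_eq_add_neg]; exact this
  · have := kf 1 i (by norm_num) hi
    have e : ρ + f 1 i = ρ - S i + ((p i : ℤ) - 1) := by simp only [hf]; norm_num; ring
    rwa [e] at this
  · have := kf 2 i (by norm_num) hi
    have e : ρ + f 2 i = ρ - S i - ((p i : ℤ) - 1) := by simp only [hf]; norm_num; ring
    rwa [e] at this
  · have := kf 3 i (by norm_num) hi
    have e : ρ + f 3 i = ρ - S i + ((p i : ℤ) + q i - 2) := by simp only [hf]; norm_num; ring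
    rwa [e] at this
  · have := kf 4 i (by norm_num) hi
    have e : ρ + f 4 i = ρ - S i - ((p i : ℤ) + q i - 2) := by simp only [hf]; norm_num; ring
    rwa [e] at this
  · have := kg 0 i (by norm_num) hi
    have e : ρ + g 0 i = ρ - 2 * S i := by simp only [hg]; norm_num; ring
    rwa [e] at this
  · have := kg 1 i (by norm_num) hi
    have e : ρ + g 1 i = ρ - 2 * S i + 3 := by simp only [hg]; norm_num; ring
    rwa [e] at this
  · have := kg 2 i (by norm_num) hi
    have e : ρ + g 2 i = ρ - 2 * S i - 1 := by simp only [hg]; norm_num; ring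
    rwa [e] at this

end

end Pool.Agent.V8H9.GE
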