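import Pool.Agent.V8H9.GD.Cho

/-!
# Bounded gaps between the defects: the choice of the primes of one level
-/

set_option autoImplicit false

namespace Pool.Agent.V8H9.GE

open Finset
open Pool.Agent.V8H9.GD (few_div few_eq greedy)

/-- few elements are bad -/
theorem bad_card {ι : Type} (I : Finset ι) (F : ι → ℕ → Prop) (B : Finset ℕ) (κ : ℕ)
    (hF : ∀ i ∈ I, ∀ C : Finset ℕ, C ⊆ B → (∀ x ∈ C, F i x) → C.card ≤ κ)
    (hB : ∀ x ∈ B, ∃ i ∈ I, F i x) : B.card ≤ I.card * κ := by
  classical
  have h1 : B ⊆ I.biUnion (fun i => B.filter (F i)) := by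
    intro x hx
    obtain ⟨i, hi, h⟩ := hB x hx
    exact mem_biUnion.2 ⟨i, hi, mem_filter.2 ⟨hx, h⟩⟩
  calc B.card ≤ (I.biUnion (fun i => B.filter (F i))).card := card_le_card h1
    _ ≤ ∑ i ∈ I, (B.filter (F i)).card := card_biUnion_le
    _ ≤ ∑ _i ∈ I, κ := sum_le_sum fun i hi => hF i hi _ (filter_subset _ _)
          (fun x hx => (mem_filter.1 hx).2)
    _ = I.card * κ := by rw [sum_const, smul_eq_mul]

/-- the differences of the new shift and the old ones -/
structure Sz (j R y : ℕ) (S : ℕ → ℤ) : Prop where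
  y0 : R + 10 ≤ y
  lo : ∀ i, i < j → 127 * (y : ℤ) ≤ S i
  hi : ∀ i, i < j → S i ≤ 129 * (y : ℤ)
  near : ∀ i, i < j → ∀ k, k < j → S i - S k ≤ R
  ne : ∀ i, i < j → ∀ k, k < j → i ≠ k → S i ≠ S k
  top : S j = 0

/-- the condition on `p i` alone -/
def UP (j : ℕ) (S : ℕ → ℤ) (i : ℕ) (p : ℕ) : Prop :=
  ∀ l, l ≤ j → ∀ c : ℤ, -3 ≤ c → c ≤ 3 → ¬ (p : ℤ) ∣ S i - 2 * S l + c

/-- the conditions on `p i`, `p k` -/
structure BP (S : ℕ → ℤ) (i k : ℕ) (p p' : ℕ) : Prop where
  b1 : ¬ (p : ℤ) ∣ S i - S k + ((p' : ℤ) - 1)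
  b2 : ¬ (p : ℤ) ∣ S i - S k - ((p' : ℤ) - 1)
  b3 : S i - S k ≠ (p : ℤ) - p'
  b4 : p ≠ p'

section

variable {j R y : ℕ} {S : ℕ → ℤ}

theorem up_bad (H : Sz j R y S) {i : ℕ} (hi : i < j) (B : Finset ℕ)
    (hB : ∀ p ∈ B, 2 * y < p ∧ p ≤ 4 * y) (hb : ∀ p ∈ B, ¬ UP j S i p) :
    B.card ≤ (7 * (j + 1)) * 801 := by
  classical
  have hy := H.y0
  have h := bad_card (range (j + 1) ×ˢ Icc (-3 : ℤ) 3)
    (fun (x : ℕ × ℤ) (p : ℕ) => (p : ℤ) ∣ S i - 2 * S x.1 + x.2) B 801 ?_ ?_
  · rw [card_product, card_range, Int.card_Icc] at h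
    have e : (3 + 1 - (-3 : ℤ)).toNat = 7 := rfl
    rw [e] at h
    calc B.card ≤ (j + 1) * 7 * 801 := h
      _ = _ := by ring
  · rintro ⟨l, c⟩ hlc C hCB hC
    rw [mem_product, mem_range, mem_Icc] at hlc
    obtain ⟨hl, hc1, hc2⟩ := hlc
    dsimp only at hl hc1 hc2 hC
    have hSi := H.lo i hi
    have hSi' := H.hi i hi
    have hSl : (S l = 0) ∨ (127 * (y : ℤ) ≤ S l ∧ S l ≤ 129 * (y : ℤ)) := by
      rcases Nat.lt_or_ge l j with h1 | h1
      · exact Or.inr ⟨H.lo l h1, H.hi l h1⟩
      · have : l = j := by omega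
        subst this
        exact Or.inl H.top
    refine few_div C 1 0 0 (S i - 2 * S l + c) 400 y (by omega) ?_ ?_ ?_ ?_
    · intro p hp
      have := hB p (hCB hp)
      omega
    · intro p hp
      rw [abs_le]
      push_cast
      rcases hSl with h1 | h1 <;> constructor <;> omega
    · intro t ht
      have : t = 0 := by linarith
      subst this
      rcases hSl with h1 | h1 <;> omega
    · intro p hp
      have := hC p hp
      simpa using this
  · intro p hp
    have h1 := hb p hp
    unfold UP at h1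
    push Not at h1
    obtain ⟨l, hl, c, hc1, hc2, hd⟩ := h1
    exact ⟨(l, c), by rw [mem_product, mem_range, mem_Icc]; exact ⟨by dsimp only; omega, hc1, hc2⟩,
      hd⟩

theorem bp_bad (H : Sz j R y S) {i k : ℕ} (hi : i < j) (hk : k < j) (hik : i ≠ k) {p' : ℕ}
    (hp' : 2 * y < p' ∧ p' ≤ 4 * y) (B : Finset ℕ)
    (hB : ∀ p ∈ B, 2 * y < p ∧ p ≤ 4 * y)
    (hb : ∀ p ∈ B, ¬ (BP S i k p p' ∧ BP S k i p' p)) :
    B.card ≤ 6 * 801 := by
  classical
  have hy := H.y0
  have hn1 := H.near i hi k hk
  have hn2 := H.near k hk i hi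
  have hne := H.ne i hi k hk hik
  set F : ℕ → ℕ → Prop := fun x p =>
    if x = 0 then (p : ℤ) ∣ S i - S k + ((p' : ℤ) - 1)
    else if x = 1 then (p : ℤ) ∣ S i - S k - ((p' : ℤ) - 1)
    else if x = 2 then S i - S k = (p : ℤ) - p'
    else if x = 3 then p = p'
    else if x = 4 then (p' : ℤ) ∣ S k - S i + ((p : ℤ) - 1)
    else (p' : ℤ) ∣ S k - S i - ((p : ℤ) - 1) with hF
  have h := bad_card (range 6) F B 801 ?_ ?_
  · rwa [card_range] at h
  · intro x hx C hCB hC
    rw [mem_range] at hx
    have hCB' : ∀ p ∈ C, 2 * y < p ∧ p ≤ 4 * y := fun p hp => hB p (hCB hp)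
    interval_cases x
    · refine few_div C 1 0 0 (S i - S k + ((p' : ℤ) - 1)) 400 y (by omega) ?_ ?_ ?_ ?_
      · intro p hp
        have := hCB' p hp
        omega
      · intro p hp
        rw [abs_le]
        push_cast
        constructor <;> omega
      · intro t ht
        have : t = 0 := by linarith
        subst this
        omega
      · intro p hp
        have := hC p hp
        simpa [hF] using this
    · refine few_div C 1 0 0 (S i - S k - ((p' : ℤ) - 1)) 400 y (by omega) ?_ ?_ ?_ ?_
      · intro p hp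
        have := hCB' p hp
        omega
      · intro p hp
        rw [abs_le]
        push_cast
        constructor <;> omega
      · intro t ht
        have : t = 0 := by linarith
        subst this
        omega
      · intro p hp
        have := hC p hp
        simpa [hF] using this
    · refine few_eq C 1 (-(S i - S k) - p') (by norm_num) (fun p hp => ?_) _ (by omega)
      have := hC p hp
      simp only [hF] at this
      norm_num at this
      linarith
    · refine few_eq C 1 (-(p' : ℤ)) (by norm_num) (fun p hp => ?_) _ (by omega)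
      have := hC p hp
      simp only [hF] at this
      norm_num at this
      subst this
      ring
    · refine few_div C 0 p' 1 (S k - S i - 1) 400 y (by omega) ?_ ?_ ?_ ?_
      · intro p hp
        omega
      · intro p hp
        have := hCB' p hp
        rw [abs_le]
        push_cast
        constructor <;> omega
      · intro t ht
        exfalso
        simp at ht
      · intro p hp
        have := hC p hp
        simp only [hF] at this
        norm_num at this
        rw [zero_mul, zero_add]
        have e : 1 * (p : ℤ) + (S k - S i - 1) = S k - S i + ((p : ℤ) - 1) := by ring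
        rw [e]; exact this
    · refine few_div C 0 p' (-1) (S k - S i + 1) 400 y (by omega) ?_ ?_ ?_ ?_
      · intro p hp
        omega
      · intro p hp
        have := hCB' p hp
        rw [abs_le]
        push_cast
        constructor <;> omega
      · intro t ht
        exfalso
        simp at ht
      · intro p hp
        have := hC p hp
        simp only [hF] at this
        norm_num at this
        rw [zero_mul, zero_add]
        have e : -1 * (p : ℤ) + (S k - S i + 1) = S k - S i - ((p : ℤ) - 1) := by ring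
        rw [e]; exact this
  · intro p hp
    by_contra hcon
    push Not at hcon
    apply hb p hp
    have k0 := hcon 0 (by simp)
    have k1 := hcon 1 (by simp)
    have k2 := hcon 2 (by simp)
    have k3 := hcon 3 (by simp)
    have k4 := hcon 4 (by simp)
    have k5 := hcon 5 (by simp)
    simp only [hF] at k0 k1 k2 k3 k4 k5
    norm_num at k0 k1 k2 k3 k4 k5
    exact ⟨⟨k0, k1, k2, k3⟩, ⟨k4, k5, fun hh => k2 (by linarith), fun hh => k3 hh.symm⟩⟩

/-- the choice of the smallest primes -/
theorem phase1 (H : Sz j R y S) (P : ℕ → Finset ℕ)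
    (hP : ∀ i, i < j → ∀ p ∈ P i, 2 * y < p ∧ p ≤ 4 * y)
    (hc : ∀ i, i < j → (7 * (j + 1) + 6 * j) * 801 < (P i).card) :
    ∃ p : ℕ → ℕ, (∀ i, i < j → p i ∈ P i) ∧ (∀ i, i < j → UP j S i (p i)) ∧
      ∀ i, i < j → ∀ k, k < j → i ≠ k → BP S i k (p i) (p k) := by
  classical
  obtain ⟨u, hu1, hu2⟩ := greedy (I := ℕ) (fun i k p p' => BP S i k p p' ∧ BP S k i p' p)
    (fun e f p q h => ⟨h.2, h.1⟩) (fun i => (P i).filter (UP j S i)) (6 * 801) (range j)
    (by
      intro i hi k hk hik q hq B hB hb
      rw [mem_range] at hi hk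
      refine bp_bad H hi hk hik (hP k hk q (mem_filter.1 hq).1) B ?_ hb
      intro p hp
      exact hP i hi p (mem_filter.1 (hB hp)).1)
    (by
      intro i hi
      rw [mem_range] at hi
      rw [card_range]
      have h1 := up_bad H hi ((P i).filter (fun p => ¬ UP j S i p))
        (fun p hp => hP i hi p (mem_filter.1 hp).1) (fun p hp => (mem_filter.1 hp).2)
      have h2 := card_filter_add_card_filter_not (s := P i) (UP j S i)
      have h3 := hc i hi
      have e : (7 * (j + 1) + 6 * j) * 801 = (7 * (j + 1)) * 801 + j * (6 * 801) := by ring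
      show j * (6 * 801) < ((P i).filter (UP j S i)).card
      generalize ((P i).filter (UP j S i)).card = A at h2 ⊢
      generalize ((P i).filter (fun p => ¬ UP j S i p)).card = B at h1 h2
      rw [← h2, e] at h3
      linarith)
  refine ⟨u, fun i hi => (mem_filter.1 (hu1 i (mem_range.2 hi))).1,
    fun i hi => (mem_filter.1 (hu1 i (mem_range.2 hi))).2,
    fun i hi k hk hik => (hu2 i (mem_range.2 hi) k (mem_range.2 hk) hik).1⟩

end

end Pool.Agent.V8H9.GE
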