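import Pool.Agent.V8H9.GE.Sel

/-!
# Bounded gaps between the defects: the choice of the middle primes of one level
-/

set_option autoImplicit false

namespace Pool.Agent.V8H9.GE

open Finset
open Pool.Agent.V8H9.GD (few_div few_eq greedy)

/-- the conditions on `q i` alone (given all `p l`) -/
structure UQ (j : ℕ) (S : ℕ → ℤ) (p : ℕ → ℕ) (i : ℕ) (q : ℕ) : Prop where
  u1 : ∀ l, l < j → ¬ (p l : ℤ) ∣ S l - S i + ((p i : ℤ) + q - 2)
  u2 : ∀ l, l < j → ¬ (p l : ℤ) ∣ S l - S i - ((p i : ℤ) + q - 2)
  u3 : ∀ l, l ≤ j → ∀ c : ℤ, -3 ≤ c → c ≤ 3 → ¬ (q : ℤ) ∣ S i - ((p i : ℤ) - 1) - 2 * S l + c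
  u4 : ∀ l, l < j → ∀ c : ℤ, -3 ≤ c → c ≤ 3 → ¬ (S i + 3 - (p i : ℤ) - q) ∣ 2 * S l + c

/-- the conditions on `q i`, `q k` -/
structure BQ (S : ℕ → ℤ) (p : ℕ → ℕ) (i k : ℕ) (q q' : ℕ) : Prop where
  b1 : ¬ (q : ℤ) ∣ S i - S k - ((p i : ℤ) - 1) + ((p k : ℤ) + q' - 2)
  b2 : ¬ (q : ℤ) ∣ S i - S k - ((p i : ℤ) - 1) - ((p k : ℤ) + q' - 2)
  b3 : ¬ (S i + 3 - (p i : ℤ) - q) ∣ 1 + S k - ((p k : ℤ) + q' - 2)
  b4 : ¬ (S i + 3 - (p i : ℤ) - q) ∣ 1 + S k + ((p k : ℤ) + q' - 2)
  b5 : q ≠ q'
  b6 : S i + 3 - (p i : ℤ) - q ≠ S k + 3 - (p k : ℤ) - q'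

section

variable {j R y : ℕ} {S : ℕ → ℤ} {p : ℕ → ℕ}

theorem uq_bad (H : Sz j R y S) (hp : ∀ i, i < j → 2 * y < p i ∧ p i ≤ 4 * y) {i : ℕ} (hi : i < j)
    (B : Finset ℕ) (hB : ∀ q ∈ B, 14 * y < q ∧ q ≤ 33 * y) (hb : ∀ q ∈ B, ¬ UQ j S p i q) :
    B.card ≤ (28 * (j + 1)) * 801 := by
  classical
  have hy := H.y0
  have hSi := H.lo i hi
  have hSi' := H.hi i hi
  have hpi := hp i hi
  set F : ℕ × ℕ × ℤ → ℕ → Prop := fun x q =>
    if x.1 = 0 then x.2.1 < j ∧ (p x.2.1 : ℤ) ∣ S x.2.1 - S i + ((p i : ℤ) + q - 2)
    else if x.1 = 1 then x.2.1 < j ∧ (p x.2.1 : ℤ) ∣ S x.2.1 - S i - ((p i : ℤ) + q - 2)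
    else if x.1 = 2 then (q : ℤ) ∣ S i - ((p i : ℤ) - 1) - 2 * S x.2.1 + x.2.2
    else x.2.1 < j ∧ (S i + 3 - (p i : ℤ) - q) ∣ 2 * S x.2.1 + x.2.2 with hF
  have h := bad_card (range 4 ×ˢ range (j + 1) ×ˢ Icc (-3 : ℤ) 3) F B 801 ?_ ?_
  · rw [card_product, card_product, card_range, card_range, Int.card_Icc] at h
    have e : (3 + 1 - (-3 : ℤ)).toNat = 7 := rfl
    rw [e] at h
    calc B.card ≤ 4 * ((j + 1) * 7) * 801 := h
      _ = _ := by ring
  · rintro ⟨x, l, c⟩ hlc C hCB hC
    rw [mem_product, mem_product, mem_range, mem_range, mem_Icc] at hlc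
    obtain ⟨hx, hl, hc1, hc2⟩ := hlc
    dsimp only at hx hl hc1 hc2
    have hCB' : ∀ q ∈ C, 14 * y < q ∧ q ≤ 33 * y := fun q hq => hB q (hCB hq)
    have hSl : (S l = 0) ∨ (127 * (y : ℤ) ≤ S l ∧ S l ≤ 129 * (y : ℤ)) := by
      rcases Nat.lt_or_ge l j with h1 | h1
      · exact Or.inr ⟨H.lo l h1, H.hi l h1⟩
      · have : l = j := by omega
        subst this
        exact Or.inl H.top
    interval_cases x
    · rcases C.eq_empty_or_nonempty with h0 | ⟨q0, hq0⟩
      · rw [h0]; simp
      have hlj : l < j := by
        have := hC q0 hq0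
        simp only [hF] at this
        norm_num at this
        exact this.1
      have hn := H.near l hlj i hi
      have hn' := H.near i hi l hlj
      have hpl := hp l hlj
      refine few_div C 0 (p l) 1 (S l - S i + p i - 2) 400 y (by omega) ?_ ?_ ?_ ?_
      · intro q hq
        omega
      · intro q hq
        have := hCB' q hq
        rw [abs_le]
        push_cast
        constructor <;> omega
      · intro t ht
        exfalso
        simp at ht
      · intro q hq
        have := hC q hq
        simp only [hF] at this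
        norm_num at this
        rw [zero_mul, zero_add]
        have e : 1 * (q : ℤ) + (S l - S i + p i - 2) = S l - S i + ((p i : ℤ) + q - 2) := by ring
        rw [e]; exact this.2
    · rcases C.eq_empty_or_nonempty with h0 | ⟨q0, hq0⟩
      · rw [h0]; simp
      have hlj : l < j := by
        have := hC q0 hq0
        simp only [hF] at this
        norm_num at this
        exact this.1
      have hn := H.near l hlj i hi
      have hn' := H.near i hi l hlj
      have hpl := hp l hlj
      refine few_div C 0 (p l) (-1) (S l - S i - p i + 2) 400 y (by omega) ?_ ?_ ?_ ?_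
      · intro q hq
        omega
      · intro q hq
        have := hCB' q hq
        rw [abs_le]
        push_cast
        constructor <;> omega
      · intro t ht
        exfalso
        simp at ht
      · intro q hq
        have := hC q hq
        simp only [hF] at this
        norm_num at this
        rw [zero_mul, zero_add]
        have e : -1 * (q : ℤ) + (S l - S i - p i + 2) = S l - S i - ((p i : ℤ) + q - 2) := by ring
        rw [e]; exact this.2
    · refine few_div C 1 0 0 (S i - ((p i : ℤ) - 1) - 2 * S l + c) 400 y (by omega) ?_ ?_ ?_ ?_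
      · intro q hq
        have := hCB' q hq
        omega
      · intro q hq
        rw [abs_le]
        push_cast
        rcases hSl with h1 | h1 <;> constructor <;> omega
      · intro t ht
        have : t = 0 := by linarith
        subst this
        rcases hSl with h1 | h1 <;> omega
      · intro q hq
        have := hC q hq
        simp only [hF] at this
        norm_num at this
        simpa using this
    · rcases C.eq_empty_or_nonempty with h0 | ⟨q0, hq0⟩
      · rw [h0]; simp
      have hlj : l < j := by
        have := hC q0 hq0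
        simp only [hF] at this
        norm_num at this
        exact this.1
      have hl1 := H.lo l hlj
      have hl2 := H.hi l hlj
      refine few_div C (-1) (S i + 3 - p i) 0 (2 * S l + c) 400 y (by omega) ?_ ?_ ?_ ?_
      · intro q hq
        have := hCB' q hq
        omega
      · intro q hq
        rw [abs_le]
        push_cast
        constructor <;> omega
      · intro t ht
        have : t = 0 := by linarith
        subst this
        omega
      · intro q hq
        have := hC q hq
        simp only [hF] at this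
        norm_num at this
        rw [zero_mul, zero_add]
        have e : -1 * (q : ℤ) + (S i + 3 - p i) = S i + 3 - (p i : ℤ) - q := by ring
        rw [e]; exact this.2
  · intro q hq
    by_contra hcon
    push Not at hcon
    apply hb q hq
    have key : ∀ x l : ℕ, ∀ c : ℤ, x < 4 → l ≤ j → -3 ≤ c → c ≤ 3 → ¬ F (x, l, c) q := by
      intro x l c hx hl hc1 hc2
      apply hcon
      rw [mem_product, mem_product, mem_range, mem_range, mem_Icc]
      exact ⟨hx, by dsimp only; omega, hc1, hc2⟩
    refine ⟨fun l hl hd => ?_, fun l hl hd => ?_, fun l hl c hc1 hc2 hd => ?_,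
      fun l hl c hc1 hc2 hd => ?_⟩
    · refine key 0 l 0 (by norm_num) (by omega) (by norm_num) (by norm_num) ?_
      simp only [hF]; norm_num; exact ⟨hl, hd⟩
    · refine key 1 l 0 (by norm_num) (by omega) (by norm_num) (by norm_num) ?_
      simp only [hF]; norm_num; exact ⟨hl, hd⟩
    · refine key 2 l c (by norm_num) (by omega) hc1 hc2 ?_
      simp only [hF]; norm_num; exact hd
    · refine key 3 l c (by norm_num) (by omega) hc1 hc2 ?_
      simp only [hF]; norm_num; exact ⟨hl, hd⟩

theorem bq_bad (H : Sz j R y S) (hp : ∀ i, i < j → 2 * y < p i ∧ p i ≤ 4 * y) {i k : ℕ}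
    (hi : i < j) (hk : k < j) {q' : ℕ} (hq' : 14 * y < q' ∧ q' ≤ 33 * y)
    (B : Finset ℕ) (hB : ∀ q ∈ B, 14 * y < q ∧ q ≤ 33 * y)
    (hb : ∀ q ∈ B, ¬ (BQ S p i k q q' ∧ BQ S p k i q' q)) :
    B.card ≤ 10 * 801 := by
  classical
  have hy := H.y0
  have hn1 := H.near i hi k hk
  have hn2 := H.near k hk i hi
  have hi1 := H.lo i hi
  have hi2 := H.hi i hi
  have hk1 := H.lo k hk
  have hk2 := H.hi k hk
  have hpi := hp i hi
  have hpk := hp k hk
  set F : ℕ → ℕ → Prop := fun x q =>
    if x = 0 then (q : ℤ) ∣ S i - S k - ((p i : ℤ) - 1) + ((p k : ℤ) + q' - 2)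
    else if x = 1 then (q : ℤ) ∣ S i - S k - ((p i : ℤ) - 1) - ((p k : ℤ) + q' - 2)
    else if x = 2 then (S i + 3 - (p i : ℤ) - q) ∣ 1 + S k - ((p k : ℤ) + q' - 2)
    else if x = 3 then (S i + 3 - (p i : ℤ) - q) ∣ 1 + S k + ((p k : ℤ) + q' - 2)
    else if x = 4 then q = q'
    else if x = 5 then S i + 3 - (p i : ℤ) - q = S k + 3 - (p k : ℤ) - q'
    else if x = 6 then (q' : ℤ) ∣ S k - S i - ((p k : ℤ) - 1) + ((p i : ℤ) + q - 2)
    else if x = 7 then (q' : ℤ) ∣ S k - S i - ((p k : ℤ) - 1) - ((p i : ℤ) + q - 2)
    else if x = 8 then (S k + 3 - (p k : ℤ) - q') ∣ 1 + S i - ((p i : ℤ) + q - 2)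
    else (S k + 3 - (p k : ℤ) - q') ∣ 1 + S i + ((p i : ℤ) + q - 2) with hF
  have h := bad_card (range 10) F B 801 ?_ ?_
  · rwa [card_range] at h
  · intro x hx C hCB hC
    rw [mem_range] at hx
    have hCB' : ∀ q ∈ C, 14 * y < q ∧ q ≤ 33 * y := fun q hq => hB q (hCB hq)
    interval_cases x
    · refine few_div C 1 0 0 (S i - S k - ((p i : ℤ) - 1) + ((p k : ℤ) + q' - 2)) 400 y (by omega)
        ?_ ?_ ?_ ?_
      · intro q hq
        have := hCB' q hq
        omega
      · intro q hq
        rw [abs_le]
        push_cast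
        constructor <;> omega
      · intro t ht
        have : t = 0 := by linarith
        subst this
        omega
      · intro q hq
        have := hC q hq
        simp only [hF] at this
        norm_num at this
        simpa using this
    · refine few_div C 1 0 0 (S i - S k - ((p i : ℤ) - 1) - ((p k : ℤ) + q' - 2)) 400 y (by omega)
        ?_ ?_ ?_ ?_
      · intro q hq
        have := hCB' q hq
        omega
      · intro q hq
        rw [abs_le]
        push_cast
        constructor <;> omega
      · intro t ht
        have : t = 0 := by linarith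
        subst this
        omega
      · intro q hq
        have := hC q hq
        simp only [hF] at this
        norm_num at this
        simpa using this
    · refine few_div C (-1) (S i + 3 - p i) 0 (1 + S k - ((p k : ℤ) + q' - 2)) 400 y (by omega)
        ?_ ?_ ?_ ?_
      · intro q hq
        have := hCB' q hq
        omega
      · intro q hq
        rw [abs_le]
        push_cast
        constructor <;> omega
      · intro t ht
        have : t = 0 := by linarith
        subst this
        omega
      · intro q hq
        have := hC q hq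
        simp only [hF] at this
        norm_num at this
        rw [zero_mul, zero_add]
        have e : -1 * (q : ℤ) + (S i + 3 - p i) = S i + 3 - (p i : ℤ) - q := by ring
        rw [e]; exact this
    · refine few_div C (-1) (S i + 3 - p i) 0 (1 + S k + ((p k : ℤ) + q' - 2)) 400 y (by omega)
        ?_ ?_ ?_ ?_
      · intro q hq
        have := hCB' q hq
        omega
      · intro q hq
        rw [abs_le]
        push_cast
        constructor <;> omega
      · intro t ht
        have : t = 0 := by linarith
        subst this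
        omega
      · intro q hq
        have := hC q hq
        simp only [hF] at this
        norm_num at this
        rw [zero_mul, zero_add]
        have e : -1 * (q : ℤ) + (S i + 3 - p i) = S i + 3 - (p i : ℤ) - q := by ring
        rw [e]; exact this
    · refine few_eq C 1 (-(q' : ℤ)) (by norm_num) (fun q hq => ?_) _ (by omega)
      have := hC q hq
      simp only [hF] at this
      norm_num at this
      subst this
      ring
    · refine few_eq C (-1) (S i + 3 - p i - (S k + 3 - (p k : ℤ) - q')) (by norm_num)
        (fun q hq => ?_) _ (by omega)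
      have := hC q hq
      simp only [hF] at this
      norm_num at this
      linarith
    · refine few_div C 0 q' 1 (S k - S i - ((p k : ℤ) - 1) + ((p i : ℤ) - 2)) 400 y (by omega)
        ?_ ?_ ?_ ?_
      · intro q hq
        omega
      · intro q hq
        have := hCB' q hq
        rw [abs_le]
        push_cast
        constructor <;> omega
      · intro t ht
        exfalso
        simp at ht
      · intro q hq
        have := hC q hq
        simp only [hF] at this
        norm_num at this
        rw [zero_mul, zero_add]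
        have e : 1 * (q : ℤ) + (S k - S i - ((p k : ℤ) - 1) + ((p i : ℤ) - 2)) =
          S k - S i - ((p k : ℤ) - 1) + ((p i : ℤ) + q - 2) := by ring
        rw [e]; exact this
    · refine few_div C 0 q' (-1) (S k - S i - ((p k : ℤ) - 1) - ((p i : ℤ) - 2)) 400 y (by omega)
        ?_ ?_ ?_ ?_
      · intro q hq
        omega
      · intro q hq
        have := hCB' q hq
        rw [abs_le]
        push_cast
        constructor <;> omega
      · intro t ht
        exfalso
        simp at ht
      · intro q hq
        have := hC q hq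
        simp only [hF] at this
        norm_num at this
        rw [zero_mul, zero_add]
        have e : -1 * (q : ℤ) + (S k - S i - ((p k : ℤ) - 1) - ((p i : ℤ) - 2)) =
          S k - S i - ((p k : ℤ) - 1) - ((p i : ℤ) + q - 2) := by ring
        rw [e]; exact this
    · refine few_div C 0 (S k + 3 - (p k : ℤ) - q') (-1) (1 + S i - ((p i : ℤ) - 2)) 400 y
        (by omega) ?_ ?_ ?_ ?_
      · intro q hq
        omega
      · intro q hq
        have := hCB' q hq
        rw [abs_le]
        push_cast
        constructor <;> omega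
      · intro t ht
        exfalso
        simp at ht
      · intro q hq
        have := hC q hq
        simp only [hF] at this
        norm_num at this
        rw [zero_mul, zero_add]
        have e : -1 * (q : ℤ) + (1 + S i - ((p i : ℤ) - 2)) =
          1 + S i - ((p i : ℤ) + q - 2) := by ring
        rw [e]; exact this
    · refine few_div C 0 (S k + 3 - (p k : ℤ) - q') 1 (1 + S i + ((p i : ℤ) - 2)) 400 y
        (by omega) ?_ ?_ ?_ ?_
      · intro q hq
        omega
      · intro q hq
        have := hCB' q hq
        rw [abs_le]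
        push_cast
        constructor <;> omega
      · intro t ht
        exfalso
        simp at ht
      · intro q hq
        have := hC q hq
        simp only [hF] at this
        norm_num at this
        rw [zero_mul, zero_add]
        have e : 1 * (q : ℤ) + (1 + S i + ((p i : ℤ) - 2)) =
          1 + S i + ((p i : ℤ) + q - 2) := by ring
        rw [e]; exact this
  · intro q hq
    by_contra hcon
    push Not at hcon
    apply hb q hq
    have k0 := hcon 0 (by simp)
    have k1 := hcon 1 (by simp)
    have k2 := hcon 2 (by simp)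
    have k3 := hcon 3 (by simp)
    have k4 := hcon 4 (by simp)
    have k5 := hcon 5 (by simp)
    have k6 := hcon 6 (by simp)
    have k7 := hcon 7 (by simp)
    have k8 := hcon 8 (by simp)
    have k9 := hcon 9 (by simp)
    simp only [hF] at k0 k1 k2 k3 k4 k5 k6 k7 k8 k9
    norm_num at k0 k1 k2 k3 k4 k5 k6 k7 k8 k9
    exact ⟨⟨k0, k1, k2, k3, k4, k5⟩, ⟨k6, k7, k8, k9, fun hh => k4 hh.symm, fun hh => k5 hh.symm⟩⟩

/-- the choice of the middle primes -/
theorem phase2 (H : Sz j R y S) (hp : ∀ i, i < j → 2 * y < p i ∧ p i ≤ 4 * y) (Q : ℕ → Finset ℕ)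
    (hQ : ∀ i, i < j → ∀ q ∈ Q i, 14 * y < q ∧ q ≤ 33 * y)
    (hc : ∀ i, i < j → (28 * (j + 1) + 10 * j) * 801 < (Q i).card) :
    ∃ q : ℕ → ℕ, (∀ i, i < j → q i ∈ Q i) ∧ (∀ i, i < j → UQ j S p i (q i)) ∧
      ∀ i, i < j → ∀ k, k < j → i ≠ k → BQ S p i k (q i) (q k) := by
  classical
  obtain ⟨u, hu1, hu2⟩ := greedy (I := ℕ) (fun i k q q' => BQ S p i k q q' ∧ BQ S p k i q' q)
    (fun e f p q h => ⟨h.2, h.1⟩) (fun i => (Q i).filter (UQ j S p i)) (10 * 801) (range j)
    (by
      intro i hi k hk hik q hq B hB hb
      rw [mem_range] at hi hk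
      refine bq_bad H hp hi hk (hQ k hk q (mem_filter.1 hq).1) B ?_ hb
      intro p hp
      exact hQ i hi p (mem_filter.1 (hB hp)).1)
    (by
      intro i hi
      rw [mem_range] at hi
      rw [card_range]
      have h1 := uq_bad H hp hi ((Q i).filter (fun q => ¬ UQ j S p i q))
        (fun q hq => hQ i hi q (mem_filter.1 hq).1) (fun q hq => (mem_filter.1 hq).2)
      have h2 := card_filter_add_card_filter_not (s := Q i) (UQ j S p i)
      have h3 := hc i hi
      have e : (28 * (j + 1) + 10 * j) * 801 = (28 * (j + 1)) * 801 + j * (10 * 801) := by ring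
      show j * (10 * 801) < ((Q i).filter (UQ j S p i)).card
      generalize ((Q i).filter (UQ j S p i)).card = A at h2 ⊢
      generalize ((Q i).filter (fun q => ¬ UQ j S p i q)).card = B at h1 h2
      rw [← h2, e] at h3
      linarith)
  refine ⟨u, fun i hi => (mem_filter.1 (hu1 i (mem_range.2 hi))).1,
    fun i hi => (mem_filter.1 (hu1 i (mem_range.2 hi))).2,
    fun i hi k hk hik => (hu2 i (mem_range.2 hi) k (mem_range.2 hk) hik).1⟩

end

end Pool.Agent.V8H9.GE
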