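import Pool.Agent.V8H9.GE.Ext

/-!
# Bounded gaps between the defects: the induction over the levels
-/

set_option autoImplicit false

namespace Pool.Agent.V8H9.GE

open Finset

/-- the divisibility conditions for the new pairs -/
theorem new_pre {K M : ℕ} {D : ℕ → Prop} {j R : ℕ} {h : ℕ → ℕ} {N : ℕ}
    (A : Lev K M D j R h N) {H y N' R' : ℕ} {p q r : ℕ → ℕ}
    (F : Fam j R y (fun i => if i < j then (H : ℤ) - h i else 0) p q r)
    (hT : ∀ i, i < j → Tr (p i) (q i) (r i) (H - h i)) (hH2 : 2 ∣ H)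
    (hp1 : ∀ i, i < j → ((R.factorial : ℕ) : ℤ) ∣ (p i : ℤ) - 1 + ((H : ℤ) - h i))
    (hbase : ∀ l : ℕ, l ∣ R.factorial → (l : ℤ) ∣ (N' : ℤ) - N)
    (hL1 : ∀ l : ℕ, l ∣ R.factorial → (l : ℤ) ∣ (N' : ℤ) + 2 * H + 1)
    (hRz : ∀ l : ℕ, l.Prime → R < l → l ≤ R' →
      Rz j (fun i => if i < j then (H : ℤ) - h i else 0) p q r l ((N' : ℤ) + 2 * H))
    (hrR : ∀ i, i < j → r i ≤ R') {i : ℕ} (hi : i < j) :
    Pre (p i) (q i) (r i) ((N' : ℤ) + h i + H) := by
  have hSi : (if i < j then (H : ℤ) - h i else 0) = (H : ℤ) - h i := if_pos hi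
  have hy := F.sz.y0
  have hpi := F.pr i hi
  have hqi := F.qr i hi
  have hri := F.rr i hi
  have hTi := hT i hi
  have hpq := hTi.pq
  have hqr := hTi.qr
  have hri' := hrR i hi
  have hsum := F.sum i hi
  rw [hSi] at hsum
  have e0 : (N' : ℤ) + h i + H = (N' : ℤ) + 2 * H - ((H : ℤ) - h i) := by ring
  rw [e0]
  have hev : (2 : ℤ) ∣ (H : ℤ) - h i := by
    have h1 : 2 ∣ h i := (dvd_mul_right 2 M).trans (A.hM i hi)
    omega
  -- the small primes
  have hsmall : ∀ l : ℕ, l.Prime → l ≤ R →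
      ¬ (l : ℤ) ∣ (N' : ℤ) + 2 * H - ((H : ℤ) - h i) ∧
      ¬ (l : ℤ) ∣ (N' : ℤ) + 2 * H - ((H : ℤ) - h i) + ((p i : ℤ) - 1) ∧
      ¬ (l : ℤ) ∣ (N' : ℤ) + 2 * H - ((H : ℤ) - h i) - ((p i : ℤ) - 1) ∧
      ¬ (l : ℤ) ∣ (N' : ℤ) + 2 * H - ((H : ℤ) - h i) + ((p i : ℤ) + q i - 2) ∧
      ¬ (l : ℤ) ∣ (N' : ℤ) + 2 * H - ((H : ℤ) - h i) - ((p i : ℤ) + q i - 2) := by
    intro l hl hlR
    have hlF : l ∣ R.factorial := (hl.dvd_factorial).2 hlR
    have hlFz : (l : ℤ) ∣ ((R.factorial : ℕ) : ℤ) := Int.natCast_dvd_natCast.2 hlF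
    have hbl := hbase l hlF
    refine small_pre (g := (N' : ℤ) + 2 * h i) hl hTi.qP hTi.rP (by omega) (by omega) hsum
      (hL1 l hlF) (hlFz.trans (hp1 i hi)) hev (by ring) ?_ ?_
    · intro hd
      apply A.g0 l hl hlR i hi
      have h1 := dvd_sub hd hbl
      have e : (N' : ℤ) + 2 * h i - ((N' : ℤ) - N) = (N : ℤ) + 2 * h i := by ring
      rwa [e] at h1
    · intro hl2 hd
      apply A.g1 l hl hl2 hlR i hi
      have h1 := dvd_sub hd hbl
      have e : (N' : ℤ) + 2 * h i - 1 - ((N' : ℤ) - N) = (N : ℤ) + 2 * h i - 1 := by ring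
      rwa [e] at h1
  have hz := fun l (hl : Nat.Prime l) (h1 : R < l) (h2 : l ≤ R') => hRz l hl h1 h2
  refine ⟨?_, ?_, ?_, ?_, ?_, ?_, ?_, ?_⟩
  · have := (hz (p i) hTi.pP (by omega) (by omega)).t1 i hi rfl
    rwa [hSi] at this
  · have := (hz (q i) hTi.qP (by omega) (by omega)).t2 i hi rfl
    rwa [hSi] at this
  · have := (hz (r i) hTi.rP (by omega) (by omega)).t3 i hi rfl
    rwa [hSi] at this
  · intro l hl hlp
    rcases Nat.lt_or_ge R l with h1 | h1
    · have := (hz l hl h1 (by omega)).f0 i hi hlp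
      rwa [hSi] at this
    · exact (hsmall l hl h1).1
  · intro l hl hlp
    rcases Nat.lt_or_ge R l with h1 | h1
    · have := (hz l hl h1 (by omega)).f1 i hi hlp
      rwa [hSi] at this
    · exact (hsmall l hl h1).2.1
  · intro l hl hlp
    rcases Nat.lt_or_ge R l with h1 | h1
    · have := (hz l hl h1 (by omega)).f1' i hi hlp
      rwa [hSi] at this
    · exact (hsmall l hl h1).2.2.1
  · intro l hl hlp
    rcases Nat.lt_or_ge R l with h1 | h1
    · have := (hz l hl h1 (by omega)).f2 i hi hlp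
      rwa [hSi] at this
    · exact (hsmall l hl h1).2.2.2.1
  · intro l hl hlp
    rcases Nat.lt_or_ge R l with h1 | h1
    · have := (hz l hl h1 (by omega)).f2' i hi hlp
      rwa [hSi] at this
    · exact (hsmall l hl h1).2.2.2.2

theorem extend {K M : ℕ} {D : ℕ → Prop} {j R : ℕ} {h : ℕ → ℕ} {N : ℕ}
    (A : Lev K M D j R h N) (hjK : j < K)
    (hgap : ∀ len x0 : ℕ, ∃ x, x0 ≤ x ∧ ∀ s, x ≤ s → s ≤ x + len → M ∣ s → ¬ D s) :
    ∃ (R' : ℕ) (h' : ℕ → ℕ) (N' : ℕ), Lev K M D (j + 1) R' h' N' := by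
  classical
  have hF : 0 < R.factorial := Nat.factorial_pos _
  have hM0 := A.M0
  obtain ⟨Y0, hY0⟩ := exists_fam A
  obtain ⟨x, hx0, hx⟩ := hgap (R + R.factorial) (128 * (Y0 + R + 200))
  obtain ⟨t, ht⟩ := A.N1
  obtain ⟨H, hH1, hH2, hH3⟩ := exists_pos R.factorial (2 * M * t) (x + R) hF
  have hd2 : 2 * (2 * M * t) = N + 1 := by rw [ht]; ring
  have hMF : 4 * M ∣ R.factorial := Nat.dvd_factorial (by omega) A.M1
  have h2MF : 2 * M ∣ R.factorial := (Dvd.intro_left 2 (by ring) : 2 * M ∣ 4 * M).trans hMF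
  have h2MH : 2 * M ∣ H := by
    have h1 : ((2 * M : ℕ) : ℤ) ∣ (H : ℤ) + ((2 * M * t : ℕ) : ℤ) :=
      (Int.natCast_dvd_natCast.2 h2MF).trans hH3
    have h2 : ((2 * M : ℕ) : ℤ) ∣ ((2 * M * t : ℕ) : ℤ) :=
      Int.natCast_dvd_natCast.2 (dvd_mul_right _ _)
    exact Int.natCast_dvd_natCast.1 ((dvd_add_left h2).1 h1)
  have h2H : 2 ∣ H := (dvd_mul_right 2 M).trans h2MH
  obtain ⟨y, p, q, r, hyH, F, hT, hp1⟩ := hY0 H (2 * M * t) (by omega) hd2 hH3 h2H
  have hR1 := A.R1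
  have hex : ∀ l : ℕ, ∃ ρ : ℤ, l.Prime → R < l →
      Rz j (fun i => if i < j then (H : ℤ) - h i else 0) p q r l ρ := by
    intro l
    by_cases hl : l.Prime ∧ R < l
    · obtain ⟨ρ, hρ⟩ := exists_rz F (by omega) hl.1 hl.2
      exact ⟨ρ, fun _ _ => hρ⟩
    · exact ⟨0, fun h1 h2 => absurd ⟨h1, h2⟩ hl⟩
  choose ρ hρ using hex
  obtain ⟨R', hR'⟩ : ∃ R', R' = H + R + 10 := ⟨_, rfl⟩
  obtain ⟨N', hN1, hN2⟩ := exists_base (R := R) (R' := R') (N := N) (H := H) ρ
  have hRz : ∀ l : ℕ, l.Prime → R < l → l ≤ R' →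
      Rz j (fun i => if i < j then (H : ℤ) - h i else 0) p q r l ((N' : ℤ) + 2 * H) :=
    fun l hl h1 h2 => (hρ l hl h1).congr (hN2 l hl h1 h2)
  have hL1 : ∀ l : ℕ, l ∣ R.factorial → (l : ℤ) ∣ (N' : ℤ) + 2 * H + 1 := by
    intro l hl
    have h1 := hN1 l hl
    have h2 : (l : ℤ) ∣ (H : ℤ) + ((2 * M * t : ℕ) : ℤ) := (Int.natCast_dvd_natCast.2 hl).trans hH3
    have h3 := dvd_add h1 (h2.mul_left 2)
    have e : (N' : ℤ) - N + 2 * ((H : ℤ) + ((2 * M * t : ℕ) : ℤ)) = (N' : ℤ) + 2 * H + 1 := by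
      have : 2 * ((2 * M * t : ℕ) : ℤ) = (N : ℤ) + 1 := by exact_mod_cast hd2
      linarith
    rwa [e] at h3
  have hrR : ∀ i, i < j → r i ≤ R' := by
    intro i hi
    have := (hT i hi).sum
    omega
  set h' : ℕ → ℕ := fun i => if i < j then h i else H with hh'
  have h'1 : ∀ i, i < j → h' i = h i := fun i hi => by simp only [hh']; rw [if_pos hi]
  have h'2 : h' j = H := by simp only [hh']; rw [if_neg (lt_irrefl j)]
  have hcase : ∀ i, i < j + 1 → i < j ∨ i = j := fun i hi => by omega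
  have hHR : R < H := by omega
  refine ⟨R', h', N', ⟨hM0, by omega, by have := A.M1; omega, ?_, ?_, ?_, ?_, ?_, ?_, ?_, ?_⟩⟩
  · intro i hi
    rcases hcase i hi with h1 | rfl
    · rw [h'1 i h1]; exact A.hM i h1
    · rw [h'2]; exact h2MH
  · have h1 := hN1 (4 * M) hMF
    have h2 : ((4 * M : ℕ) : ℤ) ∣ (N : ℤ) + 1 := by exact_mod_cast A.N1
    have h3 := dvd_add h1 h2
    have e : (N' : ℤ) - N + ((N : ℤ) + 1) = ((N' + 1 : ℕ) : ℤ) := by push_cast; ring
    rw [e] at h3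
    exact Int.natCast_dvd_natCast.1 h3
  · intro i hi
    rcases hcase i hi with h1 | rfl
    · rw [h'1 i h1]; have := A.hR i h1; omega
    · rw [h'2]; omega
  · intro i k hik hk
    rcases hcase k hk with h1 | rfl
    · rw [h'1 k h1, h'1 i (by omega)]; exact A.inc i k hik h1
    · rw [h'2, h'1 i hik]; have := A.hR i hik; omega
  · intro l hl hlR i hi hd
    rcases Nat.lt_or_ge R l with h1 | h1
    · have hz := (hRz l hl h1 hlR).g0 i (by omega)
      apply hz
      rcases hcase i hi with h2 | rfl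
      · rw [h'1 i h2] at hd
        show (l : ℤ) ∣ (N' : ℤ) + 2 * H - 2 * (if i < j then (H : ℤ) - h i else 0)
        rw [if_pos h2]
        have e : (N' : ℤ) + 2 * H - 2 * ((H : ℤ) - h i) = (N' : ℤ) + 2 * h i := by ring
        rw [e]; exact hd
      · rw [h'2] at hd
        show (l : ℤ) ∣ (N' : ℤ) + 2 * H - 2 * (if i < i then (H : ℤ) - h i else 0)
        rw [if_neg (lt_irrefl i), mul_zero, sub_zero]; exact hd
    · have hlF : l ∣ R.factorial := (hl.dvd_factorial).2 h1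
      rcases hcase i hi with h2 | rfl
      · rw [h'1 i h2] at hd
        apply A.g0 l hl h1 i h2
        have h3 := dvd_sub hd (hN1 l hlF)
        have e : (N' : ℤ) + 2 * h i - ((N' : ℤ) - N) = (N : ℤ) + 2 * h i := by ring
        rwa [e] at h3
      · rw [h'2] at hd
        have h3 := dvd_sub (hL1 l hlF) hd
        have e : (N' : ℤ) + 2 * H + 1 - ((N' : ℤ) + 2 * H) = 1 := by ring
        rw [e] at h3
        have := hl.one_lt
        exact not_dvd_small (l := l) (by norm_num) (by omega) (by omega) h3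
  · intro l hl hl2 hlR i hi hd
    rcases Nat.lt_or_ge R l with h1 | h1
    · have hz := (hRz l hl h1 hlR).g3 i (by omega)
      apply hz
      rcases hcase i hi with h2 | rfl
      · rw [h'1 i h2] at hd
        show (l : ℤ) ∣ (N' : ℤ) + 2 * H - 2 * (if i < j then (H : ℤ) - h i else 0) + 3
        rw [if_pos h2]
        have e : (N' : ℤ) + 2 * H - 2 * ((H : ℤ) - h i) + 3 = (N' : ℤ) + 2 * h i + 3 := by ring
        rw [e]; exact hd
      · rw [h'2] at hd
        show (l : ℤ) ∣ (N' : ℤ) + 2 * H - 2 * (if i < i then (H : ℤ) - h i else 0) + 3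
        rw [if_neg (lt_irrefl i), mul_zero, sub_zero]; exact hd
    · have hlF : l ∣ R.factorial := (hl.dvd_factorial).2 h1
      rcases hcase i hi with h2 | rfl
      · rw [h'1 i h2] at hd
        apply A.g3 l hl hl2 h1 i h2
        have h3 := dvd_sub hd (hN1 l hlF)
        have e : (N' : ℤ) + 2 * h i + 3 - ((N' : ℤ) - N) = (N : ℤ) + 2 * h i + 3 := by ring
        rwa [e] at h3
      · rw [h'2] at hd
        have h3 := dvd_sub hd (hL1 l hlF)
        have e : (N' : ℤ) + 2 * H + 3 - ((N' : ℤ) + 2 * H + 1) = 2 := by ring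
        rw [e] at h3
        exact not_dvd_small (l := l) (by norm_num) (by omega) (by omega) h3
  · intro l hl hl2 hlR i hi hd
    rcases Nat.lt_or_ge R l with h1 | h1
    · have hz := (hRz l hl h1 hlR).g1 i (by omega)
      apply hz
      rcases hcase i hi with h2 | rfl
      · rw [h'1 i h2] at hd
        show (l : ℤ) ∣ (N' : ℤ) + 2 * H - 2 * (if i < j then (H : ℤ) - h i else 0) - 1
        rw [if_pos h2]
        have e : (N' : ℤ) + 2 * H - 2 * ((H : ℤ) - h i) - 1 = (N' : ℤ) + 2 * h i - 1 := by ring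
        rw [e]; exact hd
      · rw [h'2] at hd
        show (l : ℤ) ∣ (N' : ℤ) + 2 * H - 2 * (if i < i then (H : ℤ) - h i else 0) - 1
        rw [if_neg (lt_irrefl i), mul_zero, sub_zero]; exact hd
    · have hlF : l ∣ R.factorial := (hl.dvd_factorial).2 h1
      rcases hcase i hi with h2 | rfl
      · rw [h'1 i h2] at hd
        apply A.g1 l hl hl2 h1 i h2
        have h3 := dvd_sub hd (hN1 l hlF)
        have e : (N' : ℤ) + 2 * h i - 1 - ((N' : ℤ) - N) = (N : ℤ) + 2 * h i - 1 := by ring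
        rwa [e] at h3
      · rw [h'2] at hd
        have h3 := dvd_sub hd (hL1 l hlF)
        have e : (N' : ℤ) + 2 * H - 1 - ((N' : ℤ) + 2 * H + 1) = -2 := by ring
        rw [e] at h3
        exact not_dvd_small (l := l) (by norm_num) (by omega) (by omega) h3
  · intro i k hik hk
    rcases hcase k hk with h1 | rfl
    · rw [h'1 k h1, h'1 i (by omega)]
      obtain ⟨hD, P, Q, W, hTr, hWR, hPre⟩ := A.tr i k hik h1
      have g1 := hTr.pq
      have g2 := hTr.qr
      refine ⟨hD, P, Q, W, hTr, by omega, ?_⟩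
      refine hPre.congr (R := R) hTr.pP hTr.qP hTr.rP (by omega) (by omega) hWR ?_
      intro l hl hlR
      have h3 := hN1 l ((hl.dvd_factorial).2 hlR)
      have e : (N' : ℤ) + h i + h k - ((N : ℤ) + h i + h k) = (N' : ℤ) - N := by ring
      rw [e]; exact h3
    · rw [h'2, h'1 i hik]
      have hhR := A.hR i hik
      refine ⟨hx (H - h i) (by omega) (by omega) ?_, p i, q i, r i, hT i hik, hrR i hik, ?_⟩
      · have g1 : M ∣ H := (dvd_mul_left M 2).trans h2MH
        have g2 : M ∣ h i := (dvd_mul_left M 2).trans (A.hM i hik)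
        exact Nat.dvd_sub g1 g2
      · exact new_pre A F hT h2H hp1 hN1 hL1 hRz hrR hik

theorem levels (K M : ℕ) (D : ℕ → Prop) (hM : 0 < M)
    (hgap : ∀ len x0 : ℕ, ∃ x, x0 ≤ x ∧ ∀ s, x ≤ s → s ≤ x + len → M ∣ s → ¬ D s) :
    ∀ j, 1 ≤ j → j ≤ K → ∃ (R : ℕ) (h : ℕ → ℕ) (N : ℕ), Lev K M D j R h N := by
  intro j hj
  induction j, hj using Nat.le_induction with
  | base => intro _; exact lev_one K M D hM
  | succ j hj ih =>
    intro hjK
    obtain ⟨R, h, N, A⟩ := ih (by omega)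
    exact extend A (by omega) hgap

end Pool.Agent.V8H9.GE
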